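import Pool.Agent.H87.D3.Done0
import Pool.Agent.H95.AN.MUF

/-! Collection of the rows of the board d3h (MP_2697e3_an): the theorem in dimension three. -/

namespace Pool.Agent.H87.D3

theorem f_MUF : T_MUF := fun m G hG => Pool.Agent.H95.AN.pf_MUF 1 m G hG

theorem f_D3H : T_D3H := g_D3H f_MUF

end Pool.Agent.H87.D3
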