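import Pool.Agent.H87.D3.Targets3

/-! Row SEQ of the board d3h: a lemma on sequences. -/

namespace Pool.Agent.H87.D3

open MeasureTheory Metric Set Filter Topology
open scoped ENNReal

theorem pf_SEQ : T_SEQ := by
  intro H b j₁ k₁ k₂ B B₁ hB hB₁ hk hH hb hrec N
  obtain ⟨S, hS⟩ : ∃ S, S = ∑ j ∈ Finset.Icc 4 N, H j := ⟨_, rfl⟩
  have hSfin : S ≠ ⊤ := by
    rw [hS]
    refine (ENNReal.sum_lt_top.2 fun j hj => ?_).ne
    exact lt_of_le_of_lt (hH j (Finset.mem_Icc.1 hj).1) ENNReal.ofReal_lt_top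
  -- the three parts
  obtain ⟨s1, hs1⟩ : ∃ s, s = (Finset.Icc 4 N).filter (fun j => j < j₁) := ⟨_, rfl⟩
  obtain ⟨s2, hs2⟩ : ∃ s, s = (Finset.Icc 4 N).filter (fun j => N < j + k₁) := ⟨_, rfl⟩
  obtain ⟨s3, hs3⟩ : ∃ s, s = (Finset.Icc 4 N).filter (fun j => j₁ ≤ j ∧ j + k₁ ≤ N) := ⟨_, rfl⟩
  have hcov : Finset.Icc 4 N ⊆ s1 ∪ (s2 ∪ s3) := by
    intro j hj
    simp only [hs1, hs2, hs3, Finset.mem_union, Finset.mem_filter, hj, true_and]
    omega
  have hsum : S ≤ ∑ j ∈ s1, H j + (∑ j ∈ s2, H j + ∑ j ∈ s3, H j) := by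
    rw [hS]
    refine (Finset.sum_le_sum_of_subset hcov).trans ?_
    have hU : ∀ s t : Finset ℕ, ∑ j ∈ s ∪ t, H j ≤ ∑ j ∈ s, H j + ∑ j ∈ t, H j := by
      intro s t
      rw [← Finset.sum_union_inter]
      exact le_self_add
    exact (hU s1 (s2 ∪ s3)).trans (add_le_add le_rfl (hU s2 s3))
  have hc1 : s1.card ≤ j₁ := by
    have : s1 ⊆ Finset.range j₁ := by
      intro j hj
      rw [hs1, Finset.mem_filter] at hj
      exact Finset.mem_range.2 hj.2
    simpa using Finset.card_le_card this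
  have hc2 : s2.card ≤ k₁ := by
    have : s2 ⊆ Finset.Ioc (N - k₁) N := by
      intro j hj
      rw [hs2, Finset.mem_filter, Finset.mem_Icc] at hj
      rw [Finset.mem_Ioc]
      omega
    refine (Finset.card_le_card this).trans ?_
    rw [Nat.card_Ioc]
    omega
  have hp1 : ∑ j ∈ s1, H j ≤ ENNReal.ofReal (j₁ * B) := by
    calc ∑ j ∈ s1, H j ≤ ∑ _j ∈ s1, ENNReal.ofReal B := by
          refine Finset.sum_le_sum fun j hj => hH j ?_
          rw [hs1, Finset.mem_filter, Finset.mem_Icc] at hj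
          exact hj.1.1
      _ = s1.card * ENNReal.ofReal B := by rw [Finset.sum_const, nsmul_eq_mul]
      _ ≤ (j₁ : ℝ≥0∞) * ENNReal.ofReal B := by gcongr
      _ = ENNReal.ofReal (j₁ * B) := by
          rw [ENNReal.ofReal_mul (by positivity), ENNReal.ofReal_natCast]
  have hp2 : ∑ j ∈ s2, H j ≤ ENNReal.ofReal (k₁ * B) := by
    calc ∑ j ∈ s2, H j ≤ ∑ _j ∈ s2, ENNReal.ofReal B := by
          refine Finset.sum_le_sum fun j hj => hH j ?_
          rw [hs2, Finset.mem_filter, Finset.mem_Icc] at hj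
          exact hj.1.1
      _ = s2.card * ENNReal.ofReal B := by rw [Finset.sum_const, nsmul_eq_mul]
      _ ≤ (k₁ : ℝ≥0∞) * ENNReal.ofReal B := by gcongr
      _ = ENNReal.ofReal (k₁ * B) := by
          rw [ENNReal.ofReal_mul (by positivity), ENNReal.ofReal_natCast]
  have hshift1 : ∑ j ∈ s3, H (j + k₁) ≤ S := by
    rw [hS, ← Finset.sum_image (s := s3) (g := fun j => j + k₁) (f := H)
      (fun x _ y _ h => Nat.add_right_cancel h)]
    refine Finset.sum_le_sum_of_subset fun j hj => ?_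
    obtain ⟨i, hi, rfl⟩ := Finset.mem_image.1 hj
    rw [hs3, Finset.mem_filter, Finset.mem_Icc] at hi
    rw [Finset.mem_Icc]
    omega
  have hshift2 : ∑ j ∈ s3, H (j - k₂) ≤ S := by
    rw [hS, ← Finset.sum_image (s := s3) (g := fun j => j - k₂) (f := H)
      (fun x hx y hy h => by
        have hx' : x ∈ s3 := hx
        have hy' : y ∈ s3 := hy
        rw [hs3, Finset.mem_filter, Finset.mem_Icc] at hx' hy'
        have h' : x - k₂ = y - k₂ := h
        omega)]
    refine Finset.sum_le_sum_of_subset fun j hj => ?_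
    obtain ⟨i, hi, rfl⟩ := Finset.mem_image.1 hj
    rw [hs3, Finset.mem_filter, Finset.mem_Icc] at hi
    rw [Finset.mem_Icc]
    omega
  have hbs : ∑ j ∈ s3, b j ≤ ENNReal.ofReal B₁ := by
    refine le_trans (Finset.sum_le_sum_of_subset fun j hj => ?_) (hb N)
    rw [hs3, Finset.mem_filter, Finset.mem_Icc] at hj
    rw [Finset.mem_Icc]
    omega
  have hgeo : ∑ j ∈ s3, ENNReal.ofReal (B * (1 / 2) ^ j) ≤ ENNReal.ofReal (2 * B) := by
    rw [← ENNReal.ofReal_sum_of_nonneg (fun j _ => by positivity), ← Finset.mul_sum]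
    refine ENNReal.ofReal_le_ofReal ?_
    have h1 : ∑ j ∈ s3, (1 / 2 : ℝ) ^ j ≤ 2 := by
      have h2 : Summable (fun j : ℕ => (1 / 2 : ℝ) ^ j) := summable_geometric_two
      have h3 := h2.sum_le_tsum s3 (fun j _ => by positivity)
      rwa [tsum_geometric_two] at h3
    nlinarith
  have hp3 : ∑ j ∈ s3, H j ≤ ENNReal.ofReal B₁ + ENNReal.ofReal (1 / 4) * (S + S) +
      ENNReal.ofReal (2 * B) := by
    calc ∑ j ∈ s3, H j ≤ ∑ j ∈ s3, (b j + ENNReal.ofReal (1 / 4) * (H (j + k₁) + H (j - k₂)) +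
          ENNReal.ofReal (B * (1 / 2) ^ j)) := by
          refine Finset.sum_le_sum fun j hj => hrec j ?_
          rw [hs3, Finset.mem_filter] at hj
          exact hj.2.1
      _ = ∑ j ∈ s3, b j + ENNReal.ofReal (1 / 4) * (∑ j ∈ s3, H (j + k₁) +
          ∑ j ∈ s3, H (j - k₂)) + ∑ j ∈ s3, ENNReal.ofReal (B * (1 / 2) ^ j) := by
          rw [Finset.sum_add_distrib, Finset.sum_add_distrib, ← Finset.mul_sum,
            Finset.sum_add_distrib]
      _ ≤ _ := by gcongr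
  -- conclusion in the reals
  have hfin : S ≤ ENNReal.ofReal (j₁ * B) + (ENNReal.ofReal (k₁ * B) + (ENNReal.ofReal B₁ +
      ENNReal.ofReal (1 / 4) * (S + S) + ENNReal.ofReal (2 * B))) :=
    hsum.trans (add_le_add hp1 (add_le_add hp2 hp3))
  obtain ⟨σ, hσ0, hσ⟩ : ∃ σ : ℝ, 0 ≤ σ ∧ S = ENNReal.ofReal σ :=
    ⟨S.toReal, ENNReal.toReal_nonneg, (ENNReal.ofReal_toReal hSfin).symm⟩
  rw [← hS, hσ]
  refine ENNReal.ofReal_le_ofReal ?_
  rw [hσ, ← ENNReal.ofReal_add hσ0 hσ0, ← ENNReal.ofReal_mul (by norm_num),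
    ← ENNReal.ofReal_add hB₁ (by positivity), ← ENNReal.ofReal_add (by positivity) (by positivity),
    ← ENNReal.ofReal_add (by positivity) (by positivity),
    ← ENNReal.ofReal_add (by positivity) (by positivity),
    ENNReal.ofReal_le_ofReal_iff (by positivity)] at hfin
  nlinarith

end Pool.Agent.H87.D3
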