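import Pool.Agent.H87.D3.Targets3

/-! Row SUM of the board d3h: the sum over all cells is bounded. -/

namespace Pool.Agent.H87.D3

open MeasureTheory Metric Set Filter Topology
open scoped ENNReal

theorem pf_SUM (hEPC : T_EPC) (hREC : T_REC) (hHST : T_HST) (hHTR : T_HTR) (hSEQ : T_SEQ)
    (hPKW : T_PKW) : T_SUM := by
  intro m L Λ ε hL hΛ hε
  obtain ⟨e, he, heΛ, hEP⟩ := hEPC m L Λ ε hL hΛ hε
  obtain ⟨C, hC, hrec⟩ := hREC m L Λ ε e hL hΛ hε he heΛ hEP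
  obtain ⟨C', hC', hst⟩ := hHST Λ e C he hC
  obtain ⟨q, hq, hq'⟩ : ∃ q : ℕ, 2 ≤ q ∧ C' * (1 / 2) ^ q ≤ 1 / 4 := by
    obtain ⟨n, hn⟩ := exists_pow_lt_of_lt_one (show (0 : ℝ) < 1 / (4 * (C' + 1)) by positivity)
      (show (1 / 2 : ℝ) < 1 by norm_num)
    refine ⟨n + 2, by omega, ?_⟩
    have h1 : (1 / 2 : ℝ) ^ (n + 2) ≤ (1 / 2) ^ n :=
      pow_le_pow_of_le_one (by norm_num) (by norm_num) (by omega)
    have h2 : C' * (1 / 2 : ℝ) ^ (n + 2) ≤ (C' + 1) * (1 / (4 * (C' + 1))) := by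
      refine mul_le_mul (by linarith) (h1.trans hn.le) (by positivity) (by positivity)
    refine h2.trans (le_of_eq ?_)
    field_simp
  obtain ⟨K, ν, hν, hrec'⟩ := hrec q hq
  obtain ⟨C'', hC'', hst'⟩ := hst q K ν (by omega) hν
  obtain ⟨B0, hB0, hhtr⟩ := hHTR Λ e he
  obtain ⟨P, hP, hpk⟩ := hPKW Λ ν (4 * q) K hΛ.le hν
  refine ⟨e, C, ν, 2 * (C'' * P) + (2 * ((4 * q + 4 : ℕ) : ℝ) + 2 * ((20 * q - 1 : ℕ) : ℝ) + 8) *
    (B0 + C''), q, K, he, heΛ, hC, hq, hν, by positivity, hEP, ?_⟩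
  intro U u G hSM
  have hR := hrec' U u G hSM
  refine ⟨hR, ?_⟩
  refine hSEQ (fun j => Hj G e j) (fun j => ENNReal.ofReal C'' * bad G (4 * q) K ν j) (4 * q + 4)
    (20 * q - 1) (4 * q - 3) (B0 + C'') (C'' * P) (by positivity) (by positivity) (by omega) ?_ ?_ ?_
  · intro j hj
    exact ((hhtr m G hSM.gd).1 j hj).trans (ENNReal.ofReal_le_ofReal (by linarith))
  · intro N
    rw [← Finset.mul_sum, ENNReal.ofReal_mul hC'']
    gcongr
    exact hpk m G hSM.gd N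
  · intro j hj
    have h1 := hst' m G hSM.gd hR j hj
    have e1 : j + 20 * q - 1 = j + (20 * q - 1) := by omega
    have e2 : j + 3 - 4 * q = j - (4 * q - 3) := by omega
    rw [e1, e2] at h1
    refine h1.trans ?_
    gcongr
    linarith

end Pool.Agent.H87.D3
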