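import Pool.Agent.H87.D3.Targets2

/-! The Hessian bound in dimension three (MP_2697e3_an): target statements of the rows of the board d3h,
part 3: the local lemma, the recursion, the absorption, the Hessian, the theorem. -/

namespace Pool.Agent.H87.D3

open MeasureTheory Metric Set Filter Topology Pool.Agent.H87.SN Pool.Agent.H87.SH Pool.Agent.H87.AX
open scoped ContDiff RealInnerProductSpace ENNReal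

noncomputable section

/-! ### The local lemma -/

/-- The threshold exists. -/
def T_EPC : Prop := ∀ (m : ℕ) (L Λ ε : ℝ), 0 ≤ L → 0 < Λ → 0 < ε →
    ∃ e : ℝ, 0 < e ∧ e ≤ Λ ∧ EP m L Λ ε e

/-- The geometry of a frame. -/
def T_FRM : Prop := ∃ CM : ℝ, 0 ≤ CM ∧ ∀ (m : ℕ) (L Λ ε e δ₁ δ₂ σ h : ℝ), 0 ≤ L → 0 < Λ → 0 < ε →
    0 < e → e ≤ Λ → 0 < δ₁ → 0 < δ₂ → 0 < h → 64 * h ≤ σ → σ ≤ 1 / 256 →
    ∃ (rc : ℝ) (K : ℕ) (om : ℝ), 0 < rc ∧ rc ≤ h / 100 ∧ 64 * rc ^ 2 < e / 256 * h ^ 2 ∧ 0 < om ∧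
    ∀ (U : Set V) (u : V → E m) (G : V → V →L[ℝ] E m), SM m L Λ ε U u G →
    ∀ (D : ℝ) (x₀ : V), Fr G σ ((1 / 2) ^ K) om (e / (16 * Λ)) D e x₀ →
    (∀ x ∈ ball (0 : V) (5 / 8), rc ≤ rho x → x ∈ U ∧ rho x * Real.sqrt (en u x) ≤ δ₁) ∧
    Thn G h rc (e / 256) ∧ 0 ≤ In G h (3 / 8) ∧ In G h (3 / 8) ≤ δ₂ ∧
    ∃ mb y0 y1 s0 s1 : ℝ, e / 256 ≤ mb ∧ |y0| + |y1| ≤ h / 50 ∧ |s0| + |s1| ≤ h / 50 ∧
      Cen G h (CM / h * In G h (3 / 8)) mb y0 y1 s0 s1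

/-- The right side of the local lemma. -/
def Rl {m : ℕ} (G : V → V →L[ℝ] E m) (C σ h : ℝ) (x₁ : V) : ℝ≥0∞ :=
  ENNReal.ofReal C * (ENNReal.ofReal (1 / Real.sqrt (h * σ ^ 5)) *
    (∫⁻ x in {x : V | rho x < h / 4 ∧ |x 2| < 3 / 8 + h}, bt G x h) +
    ENNReal.ofReal (Real.sqrt σ) * bt G x₁ (1 / 8))

/-- The second moment and the beta number. -/
def T_LO1 : Prop := ∀ (m : ℕ) (L Λ ε e : ℝ), 0 ≤ L → 0 < Λ → 0 < ε → 0 < e → e ≤ Λ →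
    EP m L Λ ε e → ∃ C : ℝ, 0 ≤ C ∧ ∀ σ h : ℝ, 0 < h → 64 * h ≤ σ → σ ≤ 1 / 256 →
    ∃ (K : ℕ) (om : ℝ), 0 < om ∧
    ∀ (U : Set V) (u : V → E m) (G : V → V →L[ℝ] E m), SM m L Λ ε U u G →
    ∀ (D : ℝ) (x₀ : V), Fr G σ ((1 / 2) ^ K) om (e / (16 * Λ)) D e x₀ →
    (∀ x : V, rho x < h / 2 → |x 2| < 7 / 16 → e ≤ th G x (2 * h)) ∧
    (∀ x ∈ ball (0 : V) (1 / 64), e ≤ th G x (1 / 8)) ∧
    ∀ x₁ ∈ ball (0 : V) (1 / 64), bt G x₀ σ ≤ Rl G C σ h x₁ ∧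
      (th G x₀ (σ / 8) < 2 * e → ENNReal.ofReal (th G x₀ (σ / 128)) ≤ Rl G C σ h x₁)

/-- From the square to the square root. -/
def T_SUP : Prop := ∃ C : ℝ, 0 ≤ C ∧ ∀ (m : ℕ) (G : V → V →L[ℝ] E m),
    MemLp G 2 (volume.restrict (ball (0 : V) 2)) → ∀ h : ℝ, 0 < h → h ≤ 1 / 64 →
    ∫⁻ x in {x : V | rho x < h / 4 ∧ |x 2| < 3 / 8 + h}, bt G x h ≤
      ENNReal.ofReal (C / h ^ 3) *
        (∫⁻ x in {x : V | rho x < h / 2 ∧ |x 2| < 7 / 16}, bs G x (2 * h)) ^ 2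

/-- The right side of the recursion, in the frame. -/
def Rf {m : ℕ} (G : V → V →L[ℝ] E m) (C : ℝ) (q : ℕ) (x₁ : V) : ℝ≥0∞ :=
  ENNReal.ofReal C * (ENNReal.ofReal (2 ^ (47 * q)) *
    (∫⁻ x in {x : V | rho x < (1 / 2) ^ (24 * q) / 2 ∧ |x 2| < 7 / 16},
      bs G x (2 * (1 / 2) ^ (24 * q))) +
    ENNReal.ofReal ((1 / 2) ^ q) * bs G x₁ (1 / 8))

/-- The local lemma for the beta number. -/
def T_LO2 : Prop := ∀ (m : ℕ) (L Λ ε e : ℝ), 0 ≤ L → 0 < Λ → 0 < ε → 0 < e → e ≤ Λ →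
    EP m L Λ ε e → ∃ C : ℝ, 0 ≤ C ∧ ∀ q : ℕ, 2 ≤ q → ∃ (K : ℕ) (om : ℝ), 0 < om ∧
    ∀ (U : Set V) (u : V → E m) (G : V → V →L[ℝ] E m), SM m L Λ ε U u G →
    ∀ (D : ℝ) (x₀ : V), Fr G ((1 / 2) ^ (4 * q)) ((1 / 2) ^ K) om (e / (16 * Λ)) D e x₀ →
    (∀ x : V, rho x < (1 / 2) ^ (24 * q) / 2 → |x 2| < 7 / 16 →
      e ≤ th G x (2 * (1 / 2) ^ (24 * q))) ∧
    (∀ x ∈ ball (0 : V) (1 / 64), e ≤ th G x (1 / 8)) ∧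
    ∀ x₁ ∈ ball (0 : V) (1 / 64), bs G x₀ ((1 / 2) ^ (4 * q)) ≤ Rf G C q x₁ ∧
      (th G x₀ ((1 / 2) ^ (4 * q) / 8) < 2 * e →
        ENNReal.ofReal (Real.sqrt (th G x₀ ((1 / 2) ^ (4 * q) / 128))) ≤ Rf G C q x₁)

/-! ### The recursion -/

/-- The right side of the recursion. -/
def Rg {m : ℕ} (G : V → V →L[ℝ] E m) (e C : ℝ) (q : ℕ) (x : V) (s : ℝ) : ℝ≥0∞ :=
  ENNReal.ofReal C * (ENNReal.ofReal (2 ^ (47 * q) * ((2 ^ (4 * q) * s) ^ 3)⁻¹) *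
    (∫⁻ y in {y : V | y ∈ ball x (2 ^ (4 * q) * s) ∧ e ≤ th G y (2 * (1 / 2) ^ (20 * q) * s)},
      bs G y (2 * (1 / 2) ^ (20 * q) * s)) +
    ENNReal.ofReal ((1 / 2) ^ q * ((2 ^ (4 * q) * s) ^ 3)⁻¹) *
    (∫⁻ y in {y : V | y ∈ ball x (2 ^ (4 * q) * s) ∧ e ≤ th G y (2 ^ (4 * q) * s / 8)},
      bs G y (2 ^ (4 * q) * s / 8)))

/-- The recursion. -/
def RecP {m : ℕ} (G : V → V →L[ℝ] E m) (e C : ℝ) (q K : ℕ) (ν : ℝ) : Prop :=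
  ∀ (x : V) (s : ℝ), 0 < s → ball x ((2 * 2 ^ (4 * q) + 2) * s) ⊆ ball 0 2 → e / 4 ≤ th G x s →
    Wc G (4 * q) K x s < ENNReal.ofReal ν → bs G x s ≤ Rg G e C q x s ∧
    (th G x (s / 8) < 2 * e →
      ENNReal.ofReal (Real.sqrt (th G x (s / 128))) ≤ Rg G e C q x s)

/-- The recursion holds. -/
def T_REC : Prop := ∀ (m : ℕ) (L Λ ε e : ℝ), 0 ≤ L → 0 < Λ → 0 < ε → 0 < e → e ≤ Λ →
    EP m L Λ ε e → ∃ C : ℝ, 0 ≤ C ∧ ∀ q : ℕ, 2 ≤ q → ∃ (K : ℕ) (ν : ℝ), 0 < ν ∧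
    ∀ (U : Set V) (u : V → E m) (G : V → V →L[ℝ] E m), SM m L Λ ε U u G → RecP G e C q K ν

/-- The sum over the cells of scale `2^(-j)`. -/
def Hj {m : ℕ} (G : V → V →L[ℝ] E m) (e : ℝ) (j : ℕ) : ℝ≥0∞ :=
  ENNReal.ofReal ((sj j ^ 2)⁻¹) * ∫⁻ x in {x : V | x ∈ ball 0 (3 / 2) ∧ e ≤ th G x (sj j)},
    ENNReal.ofReal (3 / 2 - ‖x‖) * bs G x (sj j)

/-- The cells of scale `2^(-j)` which are not pinched. -/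
def bad {m : ℕ} (G : V → V →L[ℝ] E m) (k K : ℕ) (ν : ℝ) (j : ℕ) : ℝ≥0∞ :=
  ENNReal.ofReal ((sj j ^ 2)⁻¹) *
    volume {x : V | x ∈ ball 0 (3 / 2) ∧ ENNReal.ofReal ν ≤ Wc G k K x (sj j)}

/-- Trivial bound at one scale. -/
def T_HTR : Prop := ∀ Λ e : ℝ, 0 < e → ∃ C : ℝ, 0 ≤ C ∧ ∀ (m : ℕ) (G : V → V →L[ℝ] E m), GD Λ G →
    (∀ j : ℕ, 4 ≤ j → Hj G e j ≤ ENNReal.ofReal C) ∧
    (∀ j : ℕ, 5 ≤ j → ENNReal.ofReal ((sj j ^ 2)⁻¹) *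
      (∫⁻ x in {x : V | x ∈ ball 0 (7 / 4) ∧ e ≤ th G x (sj j)}, bs G x (sj j)) ≤
      ENNReal.ofReal C)

/-- Integration of the right side of the recursion with a weight. -/
def T_TON : Prop := ∀ Λ e e' : ℝ, 0 < e → 0 < e' → ∃ C' : ℝ, 0 ≤ C' ∧
    ∀ (m : ℕ) (G : V → V →L[ℝ] E m), GD Λ G → ∀ (C : ℝ) (q j : ℕ) (wt : V → ℝ≥0∞) (B : ℝ),
    0 ≤ C → 1 ≤ q → 4 * q + 4 ≤ j → Measurable wt → 0 ≤ B →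
    (∀ x y : V, x ∈ ball (0 : V) (3 / 2) → dist x y < 2 ^ (4 * q) * sj j →
      wt x ≤ ENNReal.ofReal (3 / 2 - ‖y‖) + ENNReal.ofReal B) →
    ENNReal.ofReal ((sj j ^ 2)⁻¹) *
      (∫⁻ x in {x : V | x ∈ ball 0 (3 / 2) ∧ e' ≤ th G x (sj j)}, wt x * Rg G e C q x (sj j)) ≤
      ENNReal.ofReal (C * C' * (1 / 2) ^ q) *
        (Hj G e (j + 20 * q - 1) + Hj G e (j + 3 - 4 * q) + ENNReal.ofReal B)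

/-- One step of the absorption. -/
def T_HST : Prop := ∀ Λ e C : ℝ, 0 < e → 0 ≤ C → ∃ C' : ℝ, 0 ≤ C' ∧ ∀ (q K : ℕ) (ν : ℝ), 1 ≤ q →
    0 < ν → ∃ C'' : ℝ, 0 ≤ C'' ∧ ∀ (m : ℕ) (G : V → V →L[ℝ] E m), GD Λ G → RecP G e C q K ν →
    ∀ j : ℕ, 4 * q + 4 ≤ j → Hj G e j ≤ ENNReal.ofReal C'' * bad G (4 * q) K ν j +
      ENNReal.ofReal (C' * (1 / 2) ^ q) * (Hj G e (j + 20 * q - 1) + Hj G e (j + 3 - 4 * q)) +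
      ENNReal.ofReal (C'' * (1 / 2) ^ j)

/-- A lemma on sequences. -/
def T_SEQ : Prop := ∀ (H b : ℕ → ℝ≥0∞) (j₁ k₁ k₂ : ℕ) (B B₁ : ℝ), 0 ≤ B → 0 ≤ B₁ →
    k₂ + 4 ≤ j₁ → (∀ j, 4 ≤ j → H j ≤ ENNReal.ofReal B) →
    (∀ N : ℕ, ∑ j ∈ Finset.Icc j₁ N, b j ≤ ENNReal.ofReal B₁) →
    (∀ j, j₁ ≤ j → H j ≤ b j + ENNReal.ofReal (1 / 4) * (H (j + k₁) + H (j - k₂)) +
      ENNReal.ofReal (B * (1 / 2) ^ j)) →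
    ∀ N : ℕ, ∑ j ∈ Finset.Icc 4 N, H j ≤ ENNReal.ofReal (2 * B₁ + (2 * j₁ + 2 * k₁ + 8) * B)

/-- The sum over all cells is bounded. -/
def T_SUM : Prop := ∀ (m : ℕ) (L Λ ε : ℝ), 0 ≤ L → 0 < Λ → 0 < ε →
    ∃ (e C ν B : ℝ) (q K : ℕ), 0 < e ∧ e ≤ Λ ∧ 0 ≤ C ∧ 2 ≤ q ∧ 0 < ν ∧ 0 ≤ B ∧ EP m L Λ ε e ∧
    ∀ (U : Set V) (u : V → E m) (G : V → V →L[ℝ] E m), SM m L Λ ε U u G → RecP G e C q K ν ∧
    ∀ N : ℕ, ∑ j ∈ Finset.Icc 4 N, Hj G e j ≤ ENNReal.ofReal B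

/-! ### The Hessian -/

/-- The Hessian on the points which are regular at the scale `2^(-j-1)` but not at the scale `2^(-j)`. -/
def T_HSJ : Prop := ∀ (m : ℕ) (L Λ ε e C ν : ℝ) (q K : ℕ), 0 ≤ L → 0 < Λ → 0 < e → 0 ≤ C →
    1 ≤ q → 0 < ν → EP m L Λ ε e → ∃ C' : ℝ, 0 ≤ C' ∧
    ∀ (U : Set V) (u : V → E m) (G : V → V →L[ℝ] E m), SM m L Λ ε U u G → RecP G e C q K ν →
    ∀ j : ℕ, 4 * q + 5 ≤ j →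
    hInt u {x : V | x ∈ ball 0 1 ∧ e ≤ th G x (sj j) ∧ th G x (sj (j + 1)) < e} ≤
      ENNReal.ofReal C' * (bad G (4 * q) K ν (j - 1) + Hj G e (j - 1 + 20 * q - 1) +
        Hj G e (j - 1 + 3 - 4 * q))

/-- The Hessian on the points which are regular at a fixed scale. -/
def T_HS0 : Prop := ∀ (m : ℕ) (L Λ ε e : ℝ) (j : ℕ), 0 ≤ L → 0 < Λ → 0 < e → EP m L Λ ε e →
    4 ≤ j → ∃ C' : ℝ, 0 ≤ C' ∧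
    ∀ (U : Set V) (u : V → E m) (G : V → V →L[ℝ] E m), SM m L Λ ε U u G →
    hInt u {x : V | x ∈ ball 0 1 ∧ th G x (sj j) < e} ≤ ENNReal.ofReal C'

/-- The Hessian bound. -/
def T_HSN : Prop := ∀ (m : ℕ) (L Λ ε : ℝ), 0 ≤ L → 0 < Λ → 0 < ε → ∃ B : ℝ, 0 ≤ B ∧
    ∀ (U : Set V) (u : V → E m) (G : V → V →L[ℝ] E m), SM m L Λ ε U u G →
    hInt u (ball 0 1) ≤ ENNReal.ofReal B

/-! ### From stationary harmonic maps -/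

/-- Zoomed stationary harmonic maps. -/
def T_SMI : Prop := ∀ (m : ℕ) (N : Set (E m)) (A : E m → E m →L[ℝ] E m →L[ℝ] E m),
    IsCompact N → IsSFF N A → ∃ L : ℝ, 0 ≤ L ∧ ∀ (ε C : ℝ), 0 < ε → 0 ≤ C →
    ∀ (U : Set V) (u : V → E m) (G : V → V →L[ℝ] E m), StationaryHarmonic N A u G → IsOpen U →
    U ⊆ ball 0 2 → ContDiffOn ℝ ∞ u U →
    (∀ x ∈ ball (0 : V) 2, x ∉ U → ∀ r : ℝ, 0 < r → ball x r ⊆ ball 0 2 →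
      ε * r ≤ ∫ y in ball x r, nsq (G y)) →
    ∫ x in ball (0 : V) 2, nsq (G x) ≤ C → ∀ c ∈ closedBall (0 : V) 1,
    SM m L (2 * C + 1) ε (ball 0 2 ∩ zm c (1 / 8) (LinearIsometryEquiv.refl ℝ V) ⁻¹' U)
      (fun y => u (zm c (1 / 8) (LinearIsometryEquiv.refl ℝ V) y))
      (zG c (1 / 8) (LinearIsometryEquiv.refl ℝ V) G) ∧
    hInt u (ball c (1 / 8) ∩ U) ≤
      hInt (fun y => u (zm c (1 / 8) (LinearIsometryEquiv.refl ℝ V) y)) (ball 0 1)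

/-- Cutoffs of arbitrary sets. -/
def T_CTF : Prop := ∃ C : ℝ, 0 ≤ C ∧ ∀ (F : Set V) (s : ℝ), 0 < s → ∃ χ : V → ℝ,
    ContDiff ℝ ∞ χ ∧ (∀ x, 0 ≤ χ x ∧ χ x ≤ 1) ∧ (∀ x, (∃ y ∈ F, dist x y < s) → χ x = 0) ∧
    (∀ x, (∀ y ∈ F, 3 * s ≤ dist x y) → χ x = 1) ∧ (∀ x, ‖fderiv ℝ χ x‖ ≤ C / s)

/-- The classical Hessian on the regular set is the distributional one. -/
def T_DSH : Prop := ∀ (m : ℕ) (U : Set V) (u : V → E m) (G : V → V →L[ℝ] E m) (ε : ℝ), 0 < ε →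
    MemLp G 2 (volume.restrict (ball (0 : V) 2)) → IsOpen U → U ⊆ ball 0 2 → ContDiffOn ℝ ∞ u U →
    (∀ᵐ x ∂(volume.restrict U), G x = fderiv ℝ u x) →
    (∀ x ∈ ball (0 : V) 2, x ∉ U → ∀ r : ℝ, 0 < r → ball x r ⊆ ball 0 2 →
      ε * r ≤ ∫ y in ball x r, nsq (G y)) →
    hInt u (ball 0 1 ∩ U) ≠ ⊤ → ∀ v w : V,
    IntegrableOn (fun x => fderiv ℝ (fderiv ℝ u) x v w) (ball 0 1 ∩ U) ∧
    volume (ball (0 : V) 1 \ U) = 0 ∧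
    ∀ φ : V → ℝ, ContDiff ℝ ∞ φ → HasCompactSupport φ → tsupport φ ⊆ ball 0 1 →
      ∫ x, (fderiv ℝ φ x v) • G x w = - ∫ x in ball 0 1 ∩ U, φ x • fderiv ℝ (fderiv ℝ u) x v w

/-- The theorem: Q1 in dimension three. -/
def T_D3H : Prop := ∀ (m : ℕ) (N : Set (E m)) (A : E m → E m →L[ℝ] E m →L[ℝ] E m) (ε C : ℝ),
    IsCompact N → IsSFF N A → 0 < ε → ∃ δ : ℝ, 0 ≤ δ ∧
    ∀ (U : Set V) (u : V → E m) (G : V → V →L[ℝ] E m), StationaryHarmonic N A u G → IsOpen U →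
    U ⊆ ball 0 2 → ContDiffOn ℝ ∞ u U →
    (∀ x ∈ ball (0 : V) 2, x ∉ U → ∀ r : ℝ, 0 < r → ball x r ⊆ ball 0 2 →
      ε * r ≤ ∫ y in ball x r, nsq (G y)) →
    ∫ x in ball (0 : V) 2, nsq (G x) ≤ C →
    ∃ H : Fin (1 + 2) → Fin (1 + 2) → V → E m,
      (∀ i j, IntegrableOn (H i j) (ball 0 1)) ∧
      (∀ (i j : Fin (1 + 2)) (φ : V → ℝ), ContDiff ℝ ∞ φ → HasCompactSupport φ →
        tsupport φ ⊆ ball 0 1 →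
        ∫ x, (fderiv ℝ φ x (bv i)) • G x (bv j) = - ∫ x, φ x • H i j x) ∧
      ∫⁻ x in ball (0 : V) 1,
        ENNReal.ofReal (Real.sqrt (∑ i, ∑ j, ‖H i j x‖ ^ 2)) ≤ ENNReal.ofReal δ

end

end Pool.Agent.H87.D3
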