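import Pool.Agent.H87.SN.Stmt
import Pool.Agent.H87.D3.Targets3

/-! The Hessian bound in dimension three (MP_2697e3_an): short forms of the definitions, used in the
statement of the result. -/

namespace Pool.Agent.H87.D3

open MeasureTheory Metric Set Filter Topology Pool.Agent.H87.SN Pool.Agent.H87.SH
open scoped ContDiff RealInnerProductSpace ENNReal

noncomputable section

/-- Regularity at small energy: the map `u` is smooth on the ball `B_{r/2}(x)` as soon as the energy of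
the ball `B_r(x)` is less than `ε r`. -/
def EpsReg {m : ℕ} (ε : ℝ) (u : E 3 → E m) (G : E 3 → Lin 3 m) : Prop :=
  ∀ (x : E 3) (r : ℝ), 0 < r → ball x r ⊆ ball 0 2 → ∫ y in ball x r, hs (G y) < ε * r →
    ContDiffOn ℝ ∞ u (ball x (r / 2))

/-- The second derivatives of `u` on the unit ball, in the sense of distributions, are the integrable
functions `H i j`. -/
def IsHessian {m : ℕ} (u : E 3 → E m) (H : Fin 3 → Fin 3 → E 3 → E m) : Prop :=
  (∀ i j, IntegrableOn (H i j) (ball 0 1)) ∧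
  ∀ (i j : Fin 3) (φ : E 3 → ℝ), ContDiff ℝ ∞ φ → HasCompactSupport φ → tsupport φ ⊆ ball 0 1 →
    ∫ x, pdr (fun y => pdr φ y (bv i)) x (bv j) • u x = ∫ x, φ x • H i j x

/-- The integral of the Euclidean norm of `H` over the unit ball. -/
def hessL1 {m : ℕ} (H : Fin 3 → Fin 3 → E 3 → E m) : ℝ≥0∞ :=
  ∫⁻ x in ball (0 : E 3) 1, ENNReal.ofReal (Real.sqrt (∑ i, ∑ j, ‖H i j x‖ ^ 2))

/-- The result in short form. -/
theorem short (hf : T_D3H) (m : ℕ) (N : Set (E m)) (A : E m → Bil m) (ε C : ℝ)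
    (hN : IsCompact N) (hA : IsSecond N A) (hε : 0 < ε) :
    ∃ δ : ℝ, ∀ (u : E 3 → E m) (G : E 3 → Lin 3 m), StatHarm N A u G → EpsReg ε u G →
      energy G ≤ C → ∃ H, IsHessian u H ∧ hessL1 H ≤ ENNReal.ofReal δ := by
  obtain ⟨δ, -, h⟩ := hf m N A ε C hN hA.old hε
  refine ⟨δ, fun u G h1 h2 h3 => ?_⟩
  have hw := h1.old.w12.weak
  -- the regular set
  obtain ⟨U, hU⟩ : ∃ U : Set (E 3), U = ⋃ (x : E 3) (r : ℝ) (_ : 0 < r ∧ ball x r ⊆ ball 0 2 ∧
      ∫ y in ball x r, hs (G y) < ε * r), ball x (r / 2) := ⟨_, rfl⟩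
  have hmem : ∀ y : E 3, y ∈ U ↔ ∃ (x : E 3) (r : ℝ), (0 < r ∧ ball x r ⊆ ball 0 2 ∧
      ∫ y in ball x r, hs (G y) < ε * r) ∧ y ∈ ball x (r / 2) := by
    intro y
    rw [hU]
    simp only [mem_iUnion, exists_prop]
  have hopen : IsOpen U := by
    rw [hU]
    exact isOpen_iUnion fun x => isOpen_iUnion fun r => isOpen_iUnion fun _ => isOpen_ball
  have hsub : U ⊆ ball 0 2 := by
    intro y hy
    obtain ⟨x, r, ⟨h4, h5, -⟩, h6⟩ := (hmem y).1 hy
    exact h5 (ball_subset_ball (by linarith) h6)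
  have hsm : ContDiffOn ℝ ∞ u U := by
    intro y hy
    obtain ⟨x, r, ⟨h4, h5, h6⟩, h7⟩ := (hmem y).1 hy
    exact ((h2 x r h4 h5 h6).contDiffAt (isOpen_ball.mem_nhds h7)).contDiffWithinAt
  have hdens : ∀ x ∈ ball (0 : V) 2, x ∉ U → ∀ r : ℝ, 0 < r → ball x r ⊆ ball 0 2 →
      ε * r ≤ ∫ y in ball x r, nsq (G y) := by
    intro x _ hx r hr hb
    by_contra hlt
    push Not at hlt
    exact hx ((hmem x).2 ⟨x, r, ⟨hr, hb, hlt⟩, mem_ball_self (by linarith)⟩)
  obtain ⟨H, hH1, hH2, hH3⟩ := h U u G h1.old hopen hsub hsm hdens h3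
  refine ⟨H, ⟨hH1, fun i j φ hφ hc hs => ?_⟩, hH3⟩
  have hsm : ContDiff ℝ ∞ (fun y => fderiv ℝ φ y (bv i)) :=
    (hφ.fderiv_right (m := ∞) (by norm_num)).clm_apply contDiff_const
  have hts : tsupport (fun y => fderiv ℝ φ y (bv i)) ⊆ tsupport φ := by
    refine closure_minimal ?_ (isClosed_tsupport φ)
    intro y hy
    refine (support_fderiv_subset ℝ (f := φ)) ?_
    intro h0
    apply hy
    change fderiv ℝ φ y (bv i) = 0
    rw [h0]
    rfl
  have htest : IsTest (fun y => fderiv ℝ φ y (bv i)) :=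
    ⟨hsm, hc.mono' (subset_closure.trans hts), hts.trans (hs.trans (ball_subset_ball (by norm_num)))⟩
  have h6 := hw _ htest (bv j)
  have h7 := hH2 i j φ hφ hc hs
  change ∫ x, (fderiv ℝ (fun y => fderiv ℝ φ y (bv i)) x (bv j)) • u x = _
  rw [h6, h7, neg_neg]

end

end Pool.Agent.H87.D3
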