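import Pool.Agent.H87.D3.Targets3

/-! Row TON of the board d3h: integration of the right side of the recursion with a weight. -/

namespace Pool.Agent.H87.D3

open MeasureTheory Metric Set Filter Topology Pool.Agent.H87.SN
open scoped ENNReal

theorem th_measurable {m : ℕ} (hMUF : T_MUF) {G : V → V →L[ℝ] E m}
    (hG : MemLp G 2 (volume.restrict (ball (0 : V) 2))) (r : ℝ) : Measurable (fun x => th G x r) := by
  have h := (hMUF m G hG).2.2.2.2.2 r
  exact (h.div_const r).measurable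

theorem bs_measurable {m : ℕ} (hBTM : T_BTM) {G : V → V →L[ℝ] E m}
    (hG : MemLp G 2 (volume.restrict (ball (0 : V) 2))) {t : ℝ} (ht : 0 < t) :
    Measurable (fun x => bs G x t) :=
  (hBTM m G hG t ht).pow_const _

theorem gd_nonneg {m : ℕ} {Λ : ℝ} {G : V → V →L[ℝ] E m} (h : GD Λ G) : 0 ≤ Λ := by
  have h1 := h.den 0 2 (by norm_num) le_rfl
  have h2 : 0 ≤ (mu G).real (ball (0 : V) 2) := measureReal_nonneg
  linarith

/-- Tonelli, at one scale. -/
theorem ton_core (hMUF : T_MUF) (hVOL : T_VOL) (hBTM : T_BTM) {m : ℕ} {Λ e e' : ℝ} (he' : 0 < e')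
    {G : V → V →L[ℝ] E m} (hG : GD Λ G) {s R t B : ℝ} (hs : 0 < s) (hsR : s ≤ R)
    (hR : R ≤ 1 / 16) (ht : 0 < t) {wt : V → ℝ≥0∞} (hwt : Measurable wt)
    (hw : ∀ x y : V, x ∈ ball (0 : V) (3 / 2) → dist x y < R →
      wt x ≤ ENNReal.ofReal (3 / 2 - ‖y‖) + ENNReal.ofReal B) :
    ∫⁻ x in {x : V | x ∈ ball 0 (3 / 2) ∧ e' ≤ th G x s}, wt x *
      (∫⁻ y in {y : V | y ∈ ball x R ∧ e ≤ th G y t}, bs G y t) ≤
    ENNReal.ofReal (16 * Λ * R / e' * s ^ 2) *
      ((∫⁻ y in {y : V | y ∈ ball 0 (3 / 2) ∧ e ≤ th G y t}, ENNReal.ofReal (3 / 2 - ‖y‖) * bs G y t) +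
      ENNReal.ofReal B * ∫⁻ y in {y : V | y ∈ ball 0 (7 / 4) ∧ e ≤ th G y t}, bs G y t) := by
  have hΛ := gd_nonneg hG
  have hthm := th_measurable hMUF hG.memG
  have hbm := bs_measurable hBTM hG.memG ht
  have hT : MeasurableSet {y : V | e ≤ th G y t} := measurableSet_le measurable_const (hthm t)
  have hS : MeasurableSet {x : V | x ∈ ball 0 (3 / 2) ∧ e' ≤ th G x s} :=
    measurableSet_ball.inter (measurableSet_le measurable_const (hthm s))
  obtain ⟨f, hf⟩ : ∃ f : V → ℝ≥0∞, f = {y : V | e ≤ th G y t}.indicator (fun y => bs G y t) :=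
    ⟨_, rfl⟩
  have hfm : Measurable f := by
    rw [hf]
    exact hbm.indicator hT
  obtain ⟨w1, hw1⟩ : ∃ w1 : V → ℝ≥0∞, w1 =
      {x : V | x ∈ ball 0 (3 / 2) ∧ e' ≤ th G x s}.indicator wt := ⟨_, rfl⟩
  have hw1m : Measurable w1 := by
    rw [hw1]
    exact hwt.indicator hS
  have hD : MeasurableSet {p : V × V | dist p.2 p.1 < R} :=
    measurableSet_lt (measurable_snd.dist measurable_fst) measurable_const
  have hin : ∀ x : V, ∫⁻ y in {y : V | y ∈ ball x R ∧ e ≤ th G y t}, bs G y t =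
      ∫⁻ y, {p : V × V | dist p.2 p.1 < R}.indicator (fun _ => 1) (x, y) * f y := by
    intro x
    have hm : MeasurableSet {y : V | y ∈ ball x R ∧ e ≤ th G y t} := measurableSet_ball.inter hT
    rw [← lintegral_indicator hm]
    refine lintegral_congr fun y => ?_
    by_cases h1 : dist y x < R
    · by_cases h2 : e ≤ th G y t
      · rw [indicator_of_mem (show y ∈ {y : V | y ∈ ball x R ∧ e ≤ th G y t} from ⟨h1, h2⟩),
          indicator_of_mem (show (x, y) ∈ {p : V × V | dist p.2 p.1 < R} from h1), one_mul, hf,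
          indicator_of_mem (show y ∈ {y : V | e ≤ th G y t} from h2)]
      · rw [indicator_of_notMem (show y ∉ {y : V | y ∈ ball x R ∧ e ≤ th G y t} from
            fun h => h2 h.2), hf,
          indicator_of_notMem (show y ∉ {y : V | e ≤ th G y t} from h2), mul_zero]
    · rw [indicator_of_notMem (show y ∉ {y : V | y ∈ ball x R ∧ e ≤ th G y t} from
          fun h => h1 h.1),
        indicator_of_notMem (show (x, y) ∉ {p : V × V | dist p.2 p.1 < R} from h1), zero_mul]
  have hkm : Measurable (fun p : V × V => {p : V × V | dist p.2 p.1 < R}.indicator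
      (fun _ => (1 : ℝ≥0∞)) p) := measurable_const.indicator hD
  calc ∫⁻ x in {x : V | x ∈ ball 0 (3 / 2) ∧ e' ≤ th G x s}, wt x *
      (∫⁻ y in {y : V | y ∈ ball x R ∧ e ≤ th G y t}, bs G y t)
      = ∫⁻ x, ∫⁻ y, w1 x * ({p : V × V | dist p.2 p.1 < R}.indicator (fun _ => 1) (x, y) * f y) := by
        rw [← lintegral_indicator hS]
        refine lintegral_congr fun x => ?_
        have hmm : Measurable (fun y => {p : V × V | dist p.2 p.1 < R}.indicator
            (fun _ => (1 : ℝ≥0∞)) (x, y) * f y) := (hkm.comp measurable_prodMk_left).mul hfm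
        rw [lintegral_const_mul _ hmm, ← hin x, hw1]
        by_cases hx : x ∈ {x : V | x ∈ ball 0 (3 / 2) ∧ e' ≤ th G x s}
        · rw [indicator_of_mem hx, indicator_of_mem hx]
        · rw [indicator_of_notMem hx, indicator_of_notMem hx, zero_mul]
    _ = ∫⁻ y, ∫⁻ x, w1 x * ({p : V × V | dist p.2 p.1 < R}.indicator (fun _ => 1) (x, y) * f y) := by
        refine lintegral_lintegral_swap ?_
        exact ((hw1m.comp measurable_fst).mul (hkm.mul (hfm.comp measurable_snd))).aemeasurable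
    _ = ∫⁻ y, f y * ∫⁻ x, w1 x * {p : V × V | dist p.2 p.1 < R}.indicator (fun _ => 1) (x, y) := by
        refine lintegral_congr fun y => ?_
        have hmm : Measurable (fun x => w1 x * {p : V × V | dist p.2 p.1 < R}.indicator
            (fun _ => (1 : ℝ≥0∞)) (x, y)) := hw1m.mul (hkm.comp measurable_prodMk_right)
        rw [← lintegral_const_mul _ hmm]
        refine lintegral_congr fun x => ?_
        ring
    _ ≤ ∫⁻ y, f y * ((ball (0 : V) (7 / 4)).indicator (fun y => ENNReal.ofReal (3 / 2 - ‖y‖) +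
          ENNReal.ofReal B) y * ENNReal.ofReal (16 * Λ * R / e' * s ^ 2)) := by
        refine lintegral_mono fun y => ?_
        gcongr
        by_cases hy : ‖y‖ < 25 / 16
        · have hy' : y ∈ ball (0 : V) (7 / 4) := mem_ball_zero_iff.2 (by linarith)
          rw [indicator_of_mem hy']
          have hpt : ∀ x, w1 x * {p : V × V | dist p.2 p.1 < R}.indicator (fun _ => 1) (x, y) ≤
              {x : V | x ∈ ball y R ∧ e' ≤ th G x s}.indicator
                (fun _ => ENNReal.ofReal (3 / 2 - ‖y‖) + ENNReal.ofReal B) x := by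
            intro x
            by_cases h1 : dist y x < R
            · by_cases h2 : x ∈ {x : V | x ∈ ball 0 (3 / 2) ∧ e' ≤ th G x s}
              · rw [indicator_of_mem (show (x, y) ∈ {p : V × V | dist p.2 p.1 < R} from h1),
                  mul_one, hw1, indicator_of_mem h2,
                  indicator_of_mem (show x ∈ {x : V | x ∈ ball y R ∧ e' ≤ th G x s} from
                    ⟨by rw [mem_ball, dist_comm]; exact h1, h2.2⟩)]
                exact hw x y h2.1 (by rw [dist_comm]; exact h1)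
              · rw [hw1, indicator_of_notMem h2, zero_mul]
                exact zero_le
            · rw [indicator_of_notMem (show (x, y) ∉ {p : V × V | dist p.2 p.1 < R} from h1),
                mul_zero]
              exact zero_le
          refine (lintegral_mono hpt).trans ?_
          have hmS : MeasurableSet {x : V | x ∈ ball y R ∧ e' ≤ th G x s} :=
            measurableSet_ball.inter (measurableSet_le measurable_const (hthm s))
          rw [lintegral_indicator hmS, setLIntegral_const]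
          gcongr
          have hM : (mu G).real (ball y (R + s)) ≤ Λ * (R + s) := by
            refine hG.den y (R + s) (by linarith) ?_
            intro z hz
            rw [mem_ball_zero_iff]
            rw [mem_ball, dist_eq_norm] at hz
            have := norm_le_norm_add_norm_sub' z y
            linarith
          refine (hVOL m G hG.memG e' (Λ * (R + s)) y R s he' hs (by linarith) hM).trans
            (ENNReal.ofReal_le_ofReal ?_)
          have h3 : 8 * (Λ * (R + s)) ≤ 16 * Λ * R := by nlinarith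
          have h4 : 8 * (Λ * (R + s)) / e' ≤ 16 * Λ * R / e' := by gcongr
          exact mul_le_mul_of_nonneg_right h4 (by positivity)
        · have hz : ∀ x, w1 x * {p : V × V | dist p.2 p.1 < R}.indicator (fun _ => 1) (x, y) = 0 := by
            intro x
            by_cases h1 : dist y x < R
            · have h2 : x ∉ {x : V | x ∈ ball 0 (3 / 2) ∧ e' ≤ th G x s} := by
                rintro ⟨h3, -⟩
                rw [mem_ball_zero_iff] at h3
                rw [dist_eq_norm] at h1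
                have := norm_le_norm_add_norm_sub' y x
                push Not at hy
                linarith
              rw [hw1, indicator_of_notMem h2, zero_mul]
            · rw [indicator_of_notMem (show (x, y) ∉ {p : V × V | dist p.2 p.1 < R} from h1),
                mul_zero]
          simp only [hz, lintegral_zero]
          exact zero_le
    _ = ENNReal.ofReal (16 * Λ * R / e' * s ^ 2) * ∫⁻ y, f y *
          (ball (0 : V) (7 / 4)).indicator (fun y => ENNReal.ofReal (3 / 2 - ‖y‖) +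
          ENNReal.ofReal B) y := by
        rw [← lintegral_const_mul]
        · refine lintegral_congr fun y => ?_
          ring
        · exact hfm.mul (((measurable_const.sub measurable_norm).ennreal_ofReal.add
            measurable_const).indicator measurableSet_ball)
    _ ≤ _ := by
        gcongr
        have hsplit : ∀ y, f y * (ball (0 : V) (7 / 4)).indicator (fun y =>
            ENNReal.ofReal (3 / 2 - ‖y‖) + ENNReal.ofReal B) y ≤
            {y : V | y ∈ ball 0 (3 / 2) ∧ e ≤ th G y t}.indicator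
              (fun y => ENNReal.ofReal (3 / 2 - ‖y‖) * bs G y t) y +
            ENNReal.ofReal B * {y : V | y ∈ ball 0 (7 / 4) ∧ e ≤ th G y t}.indicator
              (fun y => bs G y t) y := by
          intro y
          by_cases h1 : y ∈ ball (0 : V) (7 / 4)
          · by_cases h2 : e ≤ th G y t
            · rw [hf, indicator_of_mem (show y ∈ {y : V | e ≤ th G y t} from h2),
                indicator_of_mem h1, indicator_of_mem
                (show y ∈ {y : V | y ∈ ball 0 (7 / 4) ∧ e ≤ th G y t} from ⟨h1, h2⟩), mul_add]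
              gcongr ?_ + ?_
              · by_cases h3 : y ∈ ball (0 : V) (3 / 2)
                · rw [indicator_of_mem (show y ∈ {y : V | y ∈ ball 0 (3 / 2) ∧ e ≤ th G y t} from
                    ⟨h3, h2⟩), mul_comm]
                · rw [mem_ball_zero_iff, not_lt] at h3
                  rw [ENNReal.ofReal_of_nonpos (by linarith), mul_zero]
                  exact zero_le
              · rw [mul_comm]
            · rw [hf, indicator_of_notMem (show y ∉ {y : V | e ≤ th G y t} from h2), zero_mul]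
              exact zero_le
          · rw [indicator_of_notMem h1, mul_zero]
            exact zero_le
        refine (lintegral_mono hsplit).trans ?_
        have hm1 : MeasurableSet {y : V | y ∈ ball 0 (3 / 2) ∧ e ≤ th G y t} :=
          measurableSet_ball.inter hT
        have hm2 : MeasurableSet {y : V | y ∈ ball 0 (7 / 4) ∧ e ≤ th G y t} :=
          measurableSet_ball.inter hT
        have hm3 : Measurable (fun y : V => ENNReal.ofReal (3 / 2 - ‖y‖) * bs G y t) :=
          (measurable_const.sub measurable_norm).ennreal_ofReal.mul hbm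
        rw [lintegral_add_left (hm3.indicator hm1), lintegral_indicator hm1,
          lintegral_const_mul _ (hbm.indicator hm2), lintegral_indicator hm2]

theorem pf_TON (hMUF : T_MUF) (hVOL : T_VOL) (hBTM : T_BTM) (hHTR : T_HTR) : T_TON := by
  intro Λ e e' he he'
  obtain ⟨C0, hC0, hhtr⟩ := hHTR Λ e he
  refine ⟨64 * |Λ| / e' * (1 + 2 * C0), by positivity, ?_⟩
  intro m G hG C q j wt B hC hq hj hwt hB hw
  have hΛ := gd_nonneg hG
  rw [abs_of_nonneg hΛ]
  obtain ⟨h1, h2⟩ := hhtr m G hG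
  -- the scales
  obtain ⟨s, hs⟩ : ∃ s, s = sj j := ⟨_, rfl⟩
  have hs0 : 0 < s := by rw [hs]; unfold sj; positivity
  obtain ⟨P, hP⟩ : ∃ P : ℝ, P = 2 ^ q := ⟨_, rfl⟩
  have hP0 : 0 < P := by rw [hP]; positivity
  have hP1 : 1 ≤ P := by rw [hP]; exact one_le_pow₀ (by norm_num)
  have e4 : (2 : ℝ) ^ (4 * q) = P ^ 4 := by rw [hP, ← pow_mul, mul_comm q 4]
  have e47 : (2 : ℝ) ^ (47 * q) = P ^ 47 := by rw [hP, ← pow_mul, mul_comm q 47]
  have e20 : (1 / 2 : ℝ) ^ (20 * q) = (P ^ 20)⁻¹ := by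
    rw [hP, ← pow_mul, mul_comm q 20, one_div, inv_pow]
  have e1 : (1 / 2 : ℝ) ^ q = P⁻¹ := by rw [hP, one_div, inv_pow]
  obtain ⟨R, hR⟩ : ∃ R, R = 2 ^ (4 * q) * s := ⟨_, rfl⟩
  have hsR : s ≤ R := by
    rw [hR, e4]
    have : 1 ≤ P ^ 4 := one_le_pow₀ hP1
    nlinarith
  have hR16 : R ≤ 1 / 16 := by
    rw [hR, hs]
    unfold sj
    have h3 : (1 / 2 : ℝ) ^ j ≤ (1 / 2) ^ (4 * q + 4) :=
      pow_le_pow_of_le_one (by norm_num) (by norm_num) hj
    have h4 : (2 : ℝ) ^ (4 * q) * (1 / 2) ^ (4 * q + 4) = 1 / 16 := by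
      rw [pow_add, ← mul_assoc, ← mul_pow]
      norm_num
    calc (2 : ℝ) ^ (4 * q) * (1 / 2) ^ j ≤ 2 ^ (4 * q) * (1 / 2) ^ (4 * q + 4) := by gcongr
      _ = 1 / 16 := h4
  have hR0 : 0 < R := hs0.trans_le hsR
  -- the two levels
  have t1 : 2 * (1 / 2 : ℝ) ^ (20 * q) * s = sj (j + 20 * q - 1) := by
    rw [hs]
    unfold sj
    have : j + 20 * q = (j + 20 * q - 1) + 1 := by omega
    have h3 : (1 / 2 : ℝ) ^ (j + 20 * q) = (1 / 2) ^ (j + 20 * q - 1) * (1 / 2) := by
      conv_lhs => rw [this]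
      rw [pow_succ]
    rw [pow_add] at h3
    linarith
  have t2 : 2 ^ (4 * q) * s / 8 = sj (j + 3 - 4 * q) := by
    rw [hs]
    unfold sj
    have h3 : j + 3 = (j + 3 - 4 * q) + 4 * q := by omega
    have h4 : (1 / 2 : ℝ) ^ (j + 3) = (1 / 2) ^ (j + 3 - 4 * q) * (1 / 2) ^ (4 * q) := by
      conv_lhs => rw [h3]
      rw [pow_add]
    have h5 : (2 : ℝ) ^ (4 * q) * (1 / 2) ^ (4 * q) = 1 := by
      rw [← mul_pow]
      norm_num
    have h6 : (1 / 2 : ℝ) ^ (j + 3) = (1 / 2) ^ j / 8 := by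
      rw [pow_add]
      norm_num
      ring
    calc (2 : ℝ) ^ (4 * q) * (1 / 2) ^ j / 8 = 2 ^ (4 * q) * ((1 / 2) ^ j / 8) := by ring
      _ = 2 ^ (4 * q) * ((1 / 2) ^ (j + 3 - 4 * q) * (1 / 2) ^ (4 * q)) := by rw [← h6, h4]
      _ = (1 / 2) ^ (j + 3 - 4 * q) * (2 ^ (4 * q) * (1 / 2) ^ (4 * q)) := by ring
      _ = _ := by rw [h5, mul_one]
  have hsjpos : ∀ i, 0 < sj i := fun i => by unfold sj; positivity
  have hbm := fun (t : ℝ) (ht : 0 < t) => bs_measurable hBTM hG.memG ht
  have hthm := th_measurable hMUF hG.memG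
  have hc1 := ton_core hMUF hVOL hBTM (e := e) he' hG hs0 hsR hR16 (hsjpos (j + 20 * q - 1)) hwt
    (B := B) (fun x y hx hxy => hw x y hx (by rw [← hs, ← hR]; exact hxy))
  have hc2 := ton_core hMUF hVOL hBTM (e := e) he' hG hs0 hsR hR16 (hsjpos (j + 3 - 4 * q)) hwt
    (B := B) (fun x y hx hxy => hw x y hx (by rw [← hs, ← hR]; exact hxy))
  have hl1 := h2 (j + 20 * q - 1) (by omega)
  have hl2 := h2 (j + 3 - 4 * q) (by omega)
  have hS : MeasurableSet {x : V | x ∈ ball 0 (3 / 2) ∧ e' ≤ th G x s} :=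
    measurableSet_ball.inter (measurableSet_le measurable_const (hthm s))
  rw [← hs]
  -- measurability of the inner integrals
  have hinm : ∀ t : ℝ, 0 < t → Measurable (fun x : V =>
      ∫⁻ y in {y : V | y ∈ ball x R ∧ e ≤ th G y t}, bs G y t) := by
    intro t ht
    have hT : MeasurableSet {p : V × V | dist p.2 p.1 < R ∧ e ≤ th G p.2 t} :=
      (measurableSet_lt (measurable_snd.dist measurable_fst) measurable_const).inter
        (measurableSet_le measurable_const ((hthm t).comp measurable_snd))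
    have h3 : Measurable (fun p : V × V => {p : V × V | dist p.2 p.1 < R ∧ e ≤ th G p.2 t}.indicator
        (fun p => bs G p.2 t) p) := ((hbm t ht).comp measurable_snd).indicator hT
    have h4 : (fun x : V => ∫⁻ y in {y : V | y ∈ ball x R ∧ e ≤ th G y t}, bs G y t) =
        fun x => ∫⁻ y, {p : V × V | dist p.2 p.1 < R ∧ e ≤ th G p.2 t}.indicator
          (fun p => bs G p.2 t) (x, y) := by
      funext x
      have hm : MeasurableSet {y : V | y ∈ ball x R ∧ e ≤ th G y t} :=
        measurableSet_ball.inter (measurableSet_le measurable_const (hthm t))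
      rw [← lintegral_indicator hm]
      rfl
    rw [h4]
    exact h3.lintegral_prod_right'
  obtain ⟨F1, hF1⟩ : ∃ F1 : V → ℝ≥0∞, F1 = fun x => ∫⁻ y in {y : V | y ∈ ball x R ∧
      e ≤ th G y (sj (j + 20 * q - 1))}, bs G y (sj (j + 20 * q - 1)) := ⟨_, rfl⟩
  obtain ⟨F2, hF2⟩ : ∃ F2 : V → ℝ≥0∞, F2 = fun x => ∫⁻ y in {y : V | y ∈ ball x R ∧
      e ≤ th G y (sj (j + 3 - 4 * q))}, bs G y (sj (j + 3 - 4 * q)) := ⟨_, rfl⟩
  have hF1m : Measurable F1 := by rw [hF1]; exact hinm _ (hsjpos _)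
  have hF2m : Measurable F2 := by rw [hF2]; exact hinm _ (hsjpos _)
  have hRg : ∀ x, Rg G e C q x s = ENNReal.ofReal C * (ENNReal.ofReal (P ^ 47 * (R ^ 3)⁻¹) * F1 x +
      ENNReal.ofReal (P⁻¹ * (R ^ 3)⁻¹) * F2 x) := by
    intro x
    unfold Rg
    rw [t1, t2, e47, e1, ← hR, hF1, hF2]
  have hlhs : ∫⁻ x in {x : V | x ∈ ball 0 (3 / 2) ∧ e' ≤ th G x s}, wt x * Rg G e C q x s =
      ENNReal.ofReal C * (ENNReal.ofReal (P ^ 47 * (R ^ 3)⁻¹) *
        (∫⁻ x in {x : V | x ∈ ball 0 (3 / 2) ∧ e' ≤ th G x s}, wt x * F1 x) +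
      ENNReal.ofReal (P⁻¹ * (R ^ 3)⁻¹) *
        (∫⁻ x in {x : V | x ∈ ball 0 (3 / 2) ∧ e' ≤ th G x s}, wt x * F2 x)) := by
    have hm1 : Measurable (fun x => wt x * F1 x) := hwt.mul hF1m
    have hm2 : Measurable (fun x => wt x * F2 x) := hwt.mul hF2m
    have hm3 : Measurable (fun x => ENNReal.ofReal (P ^ 47 * (R ^ 3)⁻¹) * (wt x * F1 x)) :=
      hm1.const_mul _
    have hm4 : Measurable (fun x => ENNReal.ofReal (P⁻¹ * (R ^ 3)⁻¹) * (wt x * F2 x)) :=
      hm2.const_mul _
    have hm5 : Measurable (fun x => ENNReal.ofReal (P ^ 47 * (R ^ 3)⁻¹) * (wt x * F1 x) +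
        ENNReal.ofReal (P⁻¹ * (R ^ 3)⁻¹) * (wt x * F2 x)) := hm3.add hm4
    rw [← lintegral_const_mul _ hm1, ← lintegral_const_mul _ hm2, ← lintegral_add_left hm3,
      ← lintegral_const_mul _ hm5]
    refine lintegral_congr fun x => ?_
    rw [hRg x]
    ring
  rw [hlhs]
  have hb1 : ∫⁻ x in {x : V | x ∈ ball 0 (3 / 2) ∧ e' ≤ th G x s}, wt x * F1 x ≤
      ENNReal.ofReal (16 * Λ * R / e' * s ^ 2) * (ENNReal.ofReal (sj (j + 20 * q - 1) ^ 2) *
        (Hj G e (j + 20 * q - 1) + ENNReal.ofReal B * ENNReal.ofReal C0)) := by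
    rw [hF1]
    refine hc1.trans ?_
    gcongr
    rw [mul_add]
    gcongr ?_ + ?_
    · unfold Hj
      rw [← mul_assoc, ← ENNReal.ofReal_mul (by positivity), mul_inv_cancel₀
        (by have := hsjpos (j + 20 * q - 1); positivity), ENNReal.ofReal_one, one_mul]
    · calc ENNReal.ofReal B * ∫⁻ y in {y : V | y ∈ ball 0 (7 / 4) ∧
            e ≤ th G y (sj (j + 20 * q - 1))}, bs G y (sj (j + 20 * q - 1))
          = ENNReal.ofReal B * (ENNReal.ofReal (sj (j + 20 * q - 1) ^ 2) *
            (ENNReal.ofReal ((sj (j + 20 * q - 1) ^ 2)⁻¹) * ∫⁻ y in {y : V | y ∈ ball 0 (7 / 4) ∧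
            e ≤ th G y (sj (j + 20 * q - 1))}, bs G y (sj (j + 20 * q - 1)))) := by
            rw [← mul_assoc (ENNReal.ofReal (sj (j + 20 * q - 1) ^ 2)),
              ← ENNReal.ofReal_mul (by positivity), mul_inv_cancel₀
              (by have := hsjpos (j + 20 * q - 1); positivity), ENNReal.ofReal_one, one_mul]
        _ ≤ ENNReal.ofReal B * (ENNReal.ofReal (sj (j + 20 * q - 1) ^ 2) * ENNReal.ofReal C0) := by
            gcongr
        _ = _ := by ring
  have hb2 : ∫⁻ x in {x : V | x ∈ ball 0 (3 / 2) ∧ e' ≤ th G x s}, wt x * F2 x ≤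
      ENNReal.ofReal (16 * Λ * R / e' * s ^ 2) * (ENNReal.ofReal (sj (j + 3 - 4 * q) ^ 2) *
        (Hj G e (j + 3 - 4 * q) + ENNReal.ofReal B * ENNReal.ofReal C0)) := by
    rw [hF2]
    refine hc2.trans ?_
    gcongr
    rw [mul_add]
    gcongr ?_ + ?_
    · unfold Hj
      rw [← mul_assoc, ← ENNReal.ofReal_mul (by positivity), mul_inv_cancel₀
        (by have := hsjpos (j + 3 - 4 * q); positivity), ENNReal.ofReal_one, one_mul]
    · calc ENNReal.ofReal B * ∫⁻ y in {y : V | y ∈ ball 0 (7 / 4) ∧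
            e ≤ th G y (sj (j + 3 - 4 * q))}, bs G y (sj (j + 3 - 4 * q))
          = ENNReal.ofReal B * (ENNReal.ofReal (sj (j + 3 - 4 * q) ^ 2) *
            (ENNReal.ofReal ((sj (j + 3 - 4 * q) ^ 2)⁻¹) * ∫⁻ y in {y : V | y ∈ ball 0 (7 / 4) ∧
            e ≤ th G y (sj (j + 3 - 4 * q))}, bs G y (sj (j + 3 - 4 * q)))) := by
            rw [← mul_assoc (ENNReal.ofReal (sj (j + 3 - 4 * q) ^ 2)),
              ← ENNReal.ofReal_mul (by positivity), mul_inv_cancel₀
              (by have := hsjpos (j + 3 - 4 * q); positivity), ENNReal.ofReal_one, one_mul]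
        _ ≤ ENNReal.ofReal B * (ENNReal.ofReal (sj (j + 3 - 4 * q) ^ 2) * ENNReal.ofReal C0) := by
            gcongr
        _ = _ := by ring
  -- the coefficients
  obtain ⟨Z, hZ⟩ : ∃ Z : ℝ≥0∞, Z = Hj G e (j + 20 * q - 1) + Hj G e (j + 3 - 4 * q) +
      ENNReal.ofReal B := ⟨_, rfl⟩
  obtain ⟨k, hk⟩ : ∃ k : ℝ, k = C * (64 * Λ / e') * P⁻¹ := ⟨_, rfl⟩
  have hk0 : 0 ≤ k := by rw [hk]; positivity
  have hcoef1 : (s ^ 2)⁻¹ * (C * (P ^ 47 * (R ^ 3)⁻¹ * (16 * Λ * R / e' * s ^ 2 *
      sj (j + 20 * q - 1) ^ 2))) = k := by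
    rw [hk, ← t1, hR, e4, e20]
    field_simp
    ring
  have hcoef2 : (s ^ 2)⁻¹ * (C * (P⁻¹ * (R ^ 3)⁻¹ * (16 * Λ * R / e' * s ^ 2 *
      sj (j + 3 - 4 * q) ^ 2))) ≤ k := by
    have h3 : (s ^ 2)⁻¹ * (C * (P⁻¹ * (R ^ 3)⁻¹ * (16 * Λ * R / e' * s ^ 2 *
      sj (j + 3 - 4 * q) ^ 2))) = C * (1 / 4 * Λ / e') * P⁻¹ := by
      rw [← t2, ← hR]
      field_simp
      ring
    rw [h3, hk]
    have h4 : 1 / 4 * Λ / e' ≤ 64 * Λ / e' := by
      gcongr
      norm_num
    gcongr
  rw [← hZ]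
  calc ENNReal.ofReal ((s ^ 2)⁻¹) * (ENNReal.ofReal C * (ENNReal.ofReal (P ^ 47 * (R ^ 3)⁻¹) *
        (∫⁻ x in {x : V | x ∈ ball 0 (3 / 2) ∧ e' ≤ th G x s}, wt x * F1 x) +
      ENNReal.ofReal (P⁻¹ * (R ^ 3)⁻¹) *
        (∫⁻ x in {x : V | x ∈ ball 0 (3 / 2) ∧ e' ≤ th G x s}, wt x * F2 x)))
      ≤ ENNReal.ofReal ((s ^ 2)⁻¹) * (ENNReal.ofReal C * (ENNReal.ofReal (P ^ 47 * (R ^ 3)⁻¹) *
        (ENNReal.ofReal (16 * Λ * R / e' * s ^ 2) * (ENNReal.ofReal (sj (j + 20 * q - 1) ^ 2) *
        (Hj G e (j + 20 * q - 1) + ENNReal.ofReal B * ENNReal.ofReal C0))) +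
      ENNReal.ofReal (P⁻¹ * (R ^ 3)⁻¹) *
        (ENNReal.ofReal (16 * Λ * R / e' * s ^ 2) * (ENNReal.ofReal (sj (j + 3 - 4 * q) ^ 2) *
        (Hj G e (j + 3 - 4 * q) + ENNReal.ofReal B * ENNReal.ofReal C0))))) := by
        gcongr
    _ = ENNReal.ofReal ((s ^ 2)⁻¹ * (C * (P ^ 47 * (R ^ 3)⁻¹ * (16 * Λ * R / e' * s ^ 2 *
          sj (j + 20 * q - 1) ^ 2)))) *
          (Hj G e (j + 20 * q - 1) + ENNReal.ofReal B * ENNReal.ofReal C0) +
        ENNReal.ofReal ((s ^ 2)⁻¹ * (C * (P⁻¹ * (R ^ 3)⁻¹ * (16 * Λ * R / e' * s ^ 2 *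
          sj (j + 3 - 4 * q) ^ 2)))) *
          (Hj G e (j + 3 - 4 * q) + ENNReal.ofReal B * ENNReal.ofReal C0) := by
        have h5 : ∀ a c d f g : ℝ, 0 ≤ a → 0 ≤ c → 0 ≤ d → 0 ≤ f → ENNReal.ofReal
            (a * (c * (d * (f * g)))) = ENNReal.ofReal a * (ENNReal.ofReal c * (ENNReal.ofReal d *
            (ENNReal.ofReal f * ENNReal.ofReal g))) := by
          intro a c d f g ha hc hd hf
          rw [ENNReal.ofReal_mul ha, ENNReal.ofReal_mul hc, ENNReal.ofReal_mul hd,
            ENNReal.ofReal_mul hf]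
        rw [h5 _ _ _ _ _ (by positivity) hC (by positivity) (by positivity),
          h5 _ _ _ _ _ (by positivity) hC (by positivity) (by positivity)]
        ring
    _ ≤ ENNReal.ofReal k * (Z + Z * ENNReal.ofReal C0) +
        ENNReal.ofReal k * (ENNReal.ofReal 0 + Z * ENNReal.ofReal C0) := by
        rw [hcoef1]
        have hd : ENNReal.ofReal ((s ^ 2)⁻¹ * (C * (P⁻¹ * (R ^ 3)⁻¹ * (16 * Λ * R / e' * s ^ 2 *
          sj (j + 3 - 4 * q) ^ 2)))) ≤ ENNReal.ofReal k := ENNReal.ofReal_le_ofReal hcoef2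
        have hBZ : ENNReal.ofReal B ≤ Z := by rw [hZ]; exact le_add_self
        calc _ ≤ ENNReal.ofReal k * (Hj G e (j + 20 * q - 1) +
              ENNReal.ofReal B * ENNReal.ofReal C0) + ENNReal.ofReal k *
              (Hj G e (j + 3 - 4 * q) + ENNReal.ofReal B * ENNReal.ofReal C0) := by gcongr
          _ = ENNReal.ofReal k * ((Hj G e (j + 20 * q - 1) + Hj G e (j + 3 - 4 * q)) +
              ENNReal.ofReal B * ENNReal.ofReal C0) +
              ENNReal.ofReal k * (ENNReal.ofReal 0 + ENNReal.ofReal B * ENNReal.ofReal C0) := by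
              rw [ENNReal.ofReal_zero]
              ring
          _ ≤ _ := by
              gcongr
              rw [hZ]
              exact le_self_add
    _ = ENNReal.ofReal (C * (64 * Λ / e' * (1 + 2 * C0)) * (1 / 2) ^ q) * Z := by
        have h5 : C * (64 * Λ / e' * (1 + 2 * C0)) * (1 / 2) ^ q = k * (1 + 2 * C0) := by
          rw [e1, hk]
          ring
        rw [h5, ENNReal.ofReal_mul hk0, ENNReal.ofReal_add (by norm_num) (by positivity),
          ENNReal.ofReal_mul (show (0 : ℝ) ≤ 2 by norm_num), ENNReal.ofReal_one,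
          ENNReal.ofReal_zero, ENNReal.ofReal_ofNat]
        ring

end Pool.Agent.H87.D3
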