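import Pool.Agent.H87.AX.Done
import Pool.Agent.H87.D3.Stmt
import Pool.Agent.H1.D3.MNT
import Pool.Agent.H10.D3.CMP
import Pool.Agent.H11.D3.PKW
import Pool.Agent.H12.D3.SMI
import Pool.Agent.H16.D3.LGR
import Pool.Agent.H16.D3.MLB
import Pool.Agent.H17.D3.HTR
import Pool.Agent.H17.D3.NCK
import Pool.Agent.H17.D3.PZ
import Pool.Agent.H18.D3.DSH
import Pool.Agent.H21.D3.CNS
import Pool.Agent.H21.D3.QNT
import Pool.Agent.H3.D3.REC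
import Pool.Agent.H30.D3.WTS
import Pool.Agent.H34.D3.BTM
import Pool.Agent.H34.D3.VOL
import Pool.Agent.H40.D3.ZMU
import Pool.Agent.H42.D3.EPC
import Pool.Agent.H42.D3.EPR
import Pool.Agent.H45.D3.BMP
import Pool.Agent.H45.D3.CHF
import Pool.Agent.H45.D3.PRF
import Pool.Agent.H51.D3.LO2
import Pool.Agent.H59.D3.PID
import Pool.Agent.H59.D3.SUP
import Pool.Agent.H60.D3.D3H
import Pool.Agent.H60.D3.THN
import Pool.Agent.H61.D3.HSJ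
import Pool.Agent.H63.D3.KLN
import Pool.Agent.H65.D3.CTF
import Pool.Agent.H65.D3.HST
import Pool.Agent.H66.D3.HS0
import Pool.Agent.H67.D3.BTF
import Pool.Agent.H67.D3.ZOM
import Pool.Agent.H68.D3.PTS
import Pool.Agent.H69.D3.HSN
import Pool.Agent.H69.D3.MAS
import Pool.Agent.H7.D3.FRM
import Pool.Agent.H70.D3.ANB
import Pool.Agent.H70.D3.HLC
import Pool.Agent.H74.D3.ANN
import Pool.Agent.H79.D3H.AVC
import Pool.Agent.H8.D3.RAD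
import Pool.Agent.H87.D3.SEQ
import Pool.Agent.H87.D3.SUM
import Pool.Agent.H87.D3.TON
import Pool.Agent.H90.D3.LO1
import Pool.Agent.H97.D3.AZ
import Pool.Agent.H97.D3.KST
import Pool.Agent.H99.D3.LIN

/-! Collection of the rows of the board d3h (MP_2697e3_an). -/

namespace Pool.Agent.H87.D3

open Pool.Agent.H87.SN Pool.Agent.H87.SH Pool.Agent.H87.AX

/-- The theorem in dimension three, up to the facts on the energy measure. -/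
theorem g_D3H (hMUF : T_MUF) : T_D3H := by
  have hEPS : T_EPS := pf_EPS f_PHI (g_SCH (mvi_of_mvx f_MVX)) (mvi_of_mvx f_MVX) f_BO1
  have hAVC : Pool.Agent.H87.D3.T_AVC := Pool.Agent.H79.D3H.pf_AVC
  have hBMP : Pool.Agent.H87.D3.T_BMP := Pool.Agent.H45.D3.pf_BMP
  have hBTF : Pool.Agent.H87.D3.T_BTF := Pool.Agent.H67.D3.pf_BTF
  have hBTM : Pool.Agent.H87.D3.T_BTM := Pool.Agent.H34.D3.pf_BTM hMUF
  have hCHF : Pool.Agent.H87.D3.T_CHF := Pool.Agent.H45.D3.pf_CHF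
  have hCNS : Pool.Agent.H87.D3.T_CNS := Pool.Agent.H21.D3.pf_CNS hMUF hCHF
  have hCTF : Pool.Agent.H87.D3.T_CTF := Pool.Agent.H65.D3.pf_CTF
  have hEPR : Pool.Agent.H87.D3.T_EPR := Pool.Agent.H42.D3.EPR.pf_EPR hEPS hMUF
  have hHLC : Pool.Agent.H87.D3.T_HLC := Pool.Agent.H70.D3.pf_HLC Pool.Agent.H87.SH.f_LHE hMUF
  have hHS0 : Pool.Agent.H87.D3.T_HS0 := Pool.Agent.H66.D3.pf_HS0 hHLC
  have hLGR : Pool.Agent.H87.D3.T_LGR := Pool.Agent.H16.D3.pf_LGR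
  have hLIN : Pool.Agent.H87.D3.T_LIN := Pool.Agent.H99.D3.pf_LIN
  have hMAS : Pool.Agent.H87.D3.T_MAS := Pool.Agent.H69.D3.pf_MAS hCNS hBMP
  have hMLB : Pool.Agent.H87.D3.T_MLB := Pool.Agent.H16.D3.pf_MLB hMUF hCHF
  have hMNT : Pool.Agent.H87.D3.T_MNT := Pool.Agent.H1.D3.pf_MNT hMUF
  have hPID : Pool.Agent.H87.D3.T_PID := Pool.Agent.H59.D3.pf_PID Pool.Agent.H87.SN.f_LA1
  have hPKW : Pool.Agent.H87.D3.T_PKW := Pool.Agent.H11.D3.pf_PKW hMUF hMNT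
  have hPRF : Pool.Agent.H87.D3.T_PRF := Pool.Agent.H45.D3.pf_PRF
  have hPTS : Pool.Agent.H87.D3.T_PTS := Pool.Agent.H68.D3.pf_PTS hMUF
  have hQNT : Pool.Agent.H87.D3.T_QNT := Pool.Agent.H21.D3.pf_QNT hMUF
  have hRAD : Pool.Agent.H87.D3.T_RAD := Pool.Agent.H8.D3.pf_RAD hMUF hMNT
  have hSEQ : Pool.Agent.H87.D3.T_SEQ := Pool.Agent.H87.D3.pf_SEQ
  have hSUP : Pool.Agent.H87.D3.T_SUP := Pool.Agent.H59.D3.SUP.pf_SUP hMUF hBTM hBTF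
  have hTHN : Pool.Agent.H87.D3.T_THN := Pool.Agent.H60.D3.pf_THN hMUF hCHF
  have hVOL : Pool.Agent.H87.D3.T_VOL := Pool.Agent.H34.D3.pf_VOL hMUF
  have hWTS : Pool.Agent.H87.D3.T_WTS := Pool.Agent.H30.D3.pf_WTS
  have hZMU : Pool.Agent.H87.D3.T_ZMU := Pool.Agent.H40.D3.pf_ZMU hMUF
  have hZOM : Pool.Agent.H87.D3.T_ZOM := Pool.Agent.H67.D3.pf_ZOM hZMU
  have hANB : Pool.Agent.H87.D3.T_ANB := Pool.Agent.H70.D3.pf_ANB hMUF hBTF hLGR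
  have hANN : Pool.Agent.H87.D3.T_ANN := Pool.Agent.H74.D3.pf_ANN hMUF hPID hPRF Pool.Agent.H87.SN.f_LA1
  have hAZ : Pool.Agent.H87.D3.T_AZ := Pool.Agent.H97.D3.pf_AZ Pool.Agent.H87.SN.f_ANG Pool.Agent.H87.SN.f_INN Pool.Agent.H87.SN.f_ROT Pool.Agent.H87.SN.f_LA1 hWTS hMUF
  have hCMP : Pool.Agent.H87.D3.T_CMP := Pool.Agent.H10.D3.pf_CMP hMUF hBTF hCHF hLGR
  have hDSH : Pool.Agent.H87.D3.T_DSH := Pool.Agent.H18.D3.pf_DSH hMUF hVOL hCTF Pool.Agent.H87.SN.f_IBP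
  have hEPC : Pool.Agent.H87.D3.T_EPC := Pool.Agent.H42.D3.EPC.pf_EPC hEPR hMUF
  have hHTR : Pool.Agent.H87.D3.T_HTR := Pool.Agent.H17.D3.pf_HTR hMUF hVOL hBTF
  have hNCK : Pool.Agent.H87.D3.T_NCK := Pool.Agent.H17.D3.pf_NCK hEPR hRAD hANN
  have hPZ : Pool.Agent.H87.D3.T_PZ := Pool.Agent.H17.D3.pf_PZ hPID hWTS Pool.Agent.H87.SN.f_LA1
  have hSMI : Pool.Agent.H87.D3.T_SMI := Pool.Agent.H12.D3.pf_SMI hMUF hZMU hMNT Pool.Agent.H87.SN.f_ST1 Pool.Agent.H87.SN.f_CL1 Pool.Agent.H87.SN.f_CL2 Pool.Agent.H87.SN.f_CL3 Pool.Agent.H87.AX.f_GE2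
  have hTON : Pool.Agent.H87.D3.T_TON := Pool.Agent.H87.D3.pf_TON hMUF hVOL hBTM hHTR
  have hFRM : Pool.Agent.H87.D3.T_FRM := Pool.Agent.H7.D3.pf_FRM hMUF hNCK hMAS hMLB hTHN
  have hHSJ : Pool.Agent.H87.D3.T_HSJ := Pool.Agent.H61.D3.pf_HSJ hMUF hHLC hTON
  have hHST : Pool.Agent.H87.D3.T_HST := Pool.Agent.H65.D3.pf_HST hTON hBTF hMUF
  have hKST : Pool.Agent.H87.D3.T_KST := Pool.Agent.H97.D3.KST.pf_KST Pool.Agent.H87.SN.f_CUT Pool.Agent.H87.SN.f_LA1 hWTS hPZ hAZ hMUF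
  have hKLN : Pool.Agent.H87.D3.T_KLN := Pool.Agent.H63.D3.pf_KLN hKST hZOM hZMU
  have hLO1 : Pool.Agent.H87.D3.T_LO1 := Pool.Agent.H90.D3.pf_LO1 hMUF hFRM hLIN hCMP hANB hAVC hQNT hKLN
  have hLO2 : Pool.Agent.H87.D3.T_LO2 := Pool.Agent.H51.D3.pf_LO2 hLO1 hSUP
  have hREC : Pool.Agent.H87.D3.T_REC := Pool.Agent.H3.D3.pf_REC hMUF hPTS hZMU hZOM hBTF hBTM hLO2
  have hSUM : Pool.Agent.H87.D3.T_SUM := Pool.Agent.H87.D3.pf_SUM hEPC hREC hHST hHTR hSEQ hPKW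
  have hHSN : Pool.Agent.H87.D3.T_HSN := Pool.Agent.H69.D3.pf_HSN hMUF hVOL hSUM hPKW hHSJ hHS0
  exact Pool.Agent.H60.D3.pf_D3H hHSN hSMI hDSH Pool.Agent.H87.AX.f_COV Pool.Agent.H87.SN.f_CL2

end Pool.Agent.H87.D3
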