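import Pool.Agent.H87.AX.Targets4

/-! The Hessian bound in dimension three (MP_2697e3_an): working definitions and target statements of the
rows of the board d3h, part 1: the energy measure, beta numbers, packing, the frame, thin annuli.
Page: H87_D3.md in the team store. -/

namespace Pool.Agent.H87.D3

open MeasureTheory Metric Set Filter Topology Pool.Agent.H87.SN Pool.Agent.H87.SH Pool.Agent.H87.AX
open scoped ContDiff RealInnerProductSpace ENNReal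

noncomputable section

/-! ### Definitions -/

/-- The space of dimension three. -/
abbrev V := E (1 + 2)

/-- The energy measure, on the ball of radius two. -/
def mu {m : ℕ} (G : V → V →L[ℝ] E m) : Measure V :=
  (volume.restrict (ball (0 : V) 2)).withDensity (fun x => ENNReal.ofReal (nsq (G x)))

/-- The density. -/
def th {m : ℕ} (G : V → V →L[ℝ] E m) (x : V) (r : ℝ) : ℝ := (mu G).real (ball x r) / r

/-- The squared distance of `y` to the line `a + ℝ T`, `‖T‖ = 1`. -/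
def dl (a T y : V) : ℝ := ‖y - a‖ ^ 2 - ⟪y - a, T⟫ ^ 2

/-- The square of the beta number of the energy measure at the point `x` and the scale `t`. -/
def bt {m : ℕ} (G : V → V →L[ℝ] E m) (x : V) (t : ℝ) : ℝ≥0∞ :=
  ⨅ (a : V) (T : V) (_ : ‖T‖ = 1), ENNReal.ofReal ((t ^ 3)⁻¹) *
    ∫⁻ y in ball x (8 * t), ENNReal.ofReal (dl a T y) ∂(mu G)

/-- The beta number. -/
def bs {m : ℕ} (G : V → V →L[ℝ] E m) (x : V) (t : ℝ) : ℝ≥0∞ := bt G x t ^ (1 / 2 : ℝ)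

/-- Square integrable, stationary, density bounded by `Λ`. -/
structure GD {m : ℕ} (Λ : ℝ) (G : V → V →L[ℝ] E m) : Prop where
  memG : MemLp G 2 (volume.restrict (ball (0 : V) 2))
  stat : Stat1 G
  den : ∀ (x : V) (r : ℝ), 0 < r → ball x r ⊆ ball 0 2 → (mu G).real (ball x r) ≤ Λ * r

/-- What is used of the map. -/
structure SM (m : ℕ) (L Λ ε : ℝ) (U : Set V) (u : V → E m) (G : V → V →L[ℝ] E m) : Prop where
  gd : GD Λ G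
  opn : IsOpen U
  sub : U ⊆ ball 0 2
  smooth : ContDiffOn ℝ ∞ u U
  ae : ∀ᵐ x ∂(volume.restrict U), G x = fderiv ℝ u x
  orth : Orth U u
  lapb : ∀ x ∈ U, ‖lap u x‖ ≤ L * en u x
  ang : ∀ x ∈ U, ∀ h : V, |⟪fderiv ℝ (fderiv ℝ u) x h h, lap u x⟫| ≤
    L * ‖fderiv ℝ u x h‖ ^ 2 * en u x
  sing : ∀ x ∈ ball (0 : V) 2, x ∉ U → ∀ r : ℝ, 0 < r → ball x r ⊆ ball 0 2 →
    ε * r ≤ (mu G).real (ball x r)

/-- The regularity threshold `e`. -/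
def EP (m : ℕ) (L Λ ε e : ℝ) : Prop := ∀ (U : Set V) (u : V → E m) (G : V → V →L[ℝ] E m),
  SM m L Λ ε U u G → ∀ (x : V) (r : ℝ), 0 < r → ball x r ⊆ ball 0 2 → th G x r < 2 * e →
  ∀ y ∈ ball x (r / 2), y ∈ U ∧ r ^ 2 * en u y ≤ 1

/-- Dyadic scales. -/
def sj (j : ℕ) : ℝ := (1 / 2) ^ j

/-- The drop of the density between the scales `2^k s` and `2^(k-K) s`. -/
def dr {m : ℕ} (G : V → V →L[ℝ] E m) (k K : ℕ) (p : V) (s : ℝ) : ℝ :=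
  th G p (2 ^ k * s) - th G p (2 ^ k * s / 2 ^ K)

/-- The averaged drop in the cell `(x, s)`. -/
def Wc {m : ℕ} (G : V → V →L[ℝ] E m) (k K : ℕ) (x : V) (s : ℝ) : ℝ≥0∞ :=
  ENNReal.ofReal s⁻¹ * ∫⁻ p in ball x s, ENNReal.ofReal (dr G k K p s) ∂(mu G)

/-- Zoom: centre `c`, factor `r`, linear isometry `g`. -/
def zm (c : V) (r : ℝ) (g : V ≃ₗᵢ[ℝ] V) (y : V) : V := c + r • g y

/-- Zoom of the gradient. -/
def zG {m : ℕ} (c : V) (r : ℝ) (g : V ≃ₗᵢ[ℝ] V) (G : V → V →L[ℝ] E m) (y : V) : V →L[ℝ] E m :=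
  r • (G (zm c r g y)).comp (g.toContinuousLinearEquiv : V →L[ℝ] V)

/-- The frame of a pinched cell: the cell is `(x₀, σ)`, the density is pinched at the points `0` and
`D • bv 2` between the scales `1` and `τ`. -/
structure Fr {m : ℕ} (G : V → V →L[ℝ] E m) (σ τ om r₁ D e : ℝ) (x₀ : V) : Prop where
  x0 : ‖x₀‖ < σ
  ch : e / 4 ≤ th G x₀ σ
  D1 : r₁ * σ ≤ D
  D2 : D ≤ 2 * σ
  p0 : th G 0 1 - th G 0 τ ≤ om
  p1 : th G (D • bv 2) 1 - th G (D • bv 2) τ ≤ om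

/-- The component `T_zz` of the stress. -/
def tz {m : ℕ} (L : V →L[ℝ] E m) : ℝ := nsq L - 2 * nzs L

/-! ### Measure theory -/

/-- Facts on the energy measure. -/
def T_MUF : Prop := ∀ (m : ℕ) (G : V → V →L[ℝ] E m),
    MemLp G 2 (volume.restrict (ball (0 : V) 2)) →
    mu G univ ≠ ⊤ ∧ mu G ≪ volume.restrict (ball (0 : V) 2) ∧
    (∀ f : V → ℝ≥0∞, Measurable f → ∀ S : Set V, MeasurableSet S →
      ∫⁻ x in S, f x ∂(mu G) = ∫⁻ x in S ∩ ball (0 : V) 2, ENNReal.ofReal (nsq (G x)) * f x) ∧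
    (∀ S : Set V, MeasurableSet S → S ⊆ ball 0 2 →
      IntegrableOn (fun x => nsq (G x)) S ∧ (mu G).real S = ∫ x in S, nsq (G x)) ∧
    (∀ (f : V → ℝ) (S : Set V) (B : ℝ), Measurable f → MeasurableSet S → S ⊆ ball 0 2 →
      (∀ x ∈ S, 0 ≤ f x ∧ f x ≤ B) → IntegrableOn (fun x => f x * nsq (G x)) S ∧
      ∫⁻ x in S, ENNReal.ofReal (f x) ∂(mu G) = ENNReal.ofReal (∫ x in S, f x * nsq (G x))) ∧
    (∀ r : ℝ, Continuous (fun x => (mu G).real (ball x r)))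

/-- Zoom and the energy measure. -/
def T_ZMU : Prop := ∀ (m : ℕ) (G : V → V →L[ℝ] E m) (c : V) (r : ℝ) (g : V ≃ₗᵢ[ℝ] V),
    MemLp G 2 (volume.restrict (ball (0 : V) 2)) → 0 < r → ball c (2 * r) ⊆ ball 0 2 →
    MemLp (zG c r g G) 2 (volume.restrict (ball (0 : V) 2)) ∧
    (∀ (f : V → ℝ≥0∞) (S : Set V), Measurable f → MeasurableSet S → S ⊆ ball 0 2 →
      ∫⁻ y in S, f (zm c r g y) ∂(mu (zG c r g G)) =
        ENNReal.ofReal r⁻¹ * ∫⁻ x in zm c r g '' S, f x ∂(mu G)) ∧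
    (∀ (f : V → ℝ≥0∞) (S : Set V), Measurable f → MeasurableSet S →
      ∫⁻ y in S, f (zm c r g y) = ENNReal.ofReal ((r ^ 3)⁻¹) * ∫⁻ x in zm c r g '' S, f x) ∧
    (∀ (y : V) (s : ℝ), zm c r g '' ball y s = ball (zm c r g y) (r * s)) ∧
    (∀ (y : V) (s : ℝ), 0 < s → ball y s ⊆ ball 0 2 →
      th (zG c r g G) y s = th G (zm c r g y) (r * s)) ∧
    (∀ (y : V) (t : ℝ), 0 < t → ball y (8 * t) ⊆ ball 0 2 →
      bt (zG c r g G) y t = bt G (zm c r g y) (r * t))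

/-- Zoom of the map. -/
def T_ZOM : Prop := ∀ (m : ℕ) (L Λ ε : ℝ) (U : Set V) (u : V → E m) (G : V → V →L[ℝ] E m),
    SM m L Λ ε U u G → ∀ (c : V) (r : ℝ) (g : V ≃ₗᵢ[ℝ] V), 0 < r → ball c (2 * r) ⊆ ball 0 2 →
    SM m L Λ ε (ball 0 2 ∩ zm c r g ⁻¹' U) (fun y => u (zm c r g y)) (zG c r g G) ∧
    (∀ y ∈ ball (0 : V) 2 ∩ zm c r g ⁻¹' U,
      en (fun y => u (zm c r g y)) y = r ^ 2 * en u (zm c r g y) ∧
      hsq (fun y => u (zm c r g y)) y = r ^ 4 * hsq u (zm c r g y))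

/-- The beta numbers are measurable. -/
def T_BTM : Prop := ∀ (m : ℕ) (G : V → V →L[ℝ] E m),
    MemLp G 2 (volume.restrict (ball (0 : V) 2)) → ∀ t : ℝ, 0 < t → Measurable (fun x => bt G x t)

/-- Facts on beta numbers. -/
def T_BTF : Prop :=
    (∀ a T y : V, ‖T‖ = 1 → 0 ≤ dl a T y ∧ dl a T y ≤ ‖y - a‖ ^ 2) ∧
    (∀ (m : ℕ) (G : V → V →L[ℝ] E m) (Λ : ℝ), GD Λ G → ∀ (x : V) (t : ℝ), 0 < t →
      ball x (8 * t) ⊆ ball 0 2 → bt G x t ≤ ENNReal.ofReal (512 * Λ)) ∧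
    (∀ (m : ℕ) (G : V → V →L[ℝ] E m) (x x' : V) (t : ℝ), 0 < t → dist x x' ≤ 8 * t →
      bt G x t ≤ 8 * bt G x' (2 * t))

/-- The volume of the set of points of large density. -/
def T_VOL : Prop := ∀ (m : ℕ) (G : V → V →L[ℝ] E m),
    MemLp G 2 (volume.restrict (ball (0 : V) 2)) → ∀ (e M : ℝ) (c : V) (r s : ℝ), 0 < e → 0 < s →
    0 ≤ r → (mu G).real (ball c (r + s)) ≤ M →
    volume {x | x ∈ ball c r ∧ e ≤ th G x s} ≤ ENNReal.ofReal (8 * M / e * s ^ 2)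

/-- The cells which are not pinched. -/
def T_PKW : Prop := ∀ (Λ ν : ℝ) (k K : ℕ), 0 ≤ Λ → 0 < ν → ∃ C : ℝ, 0 ≤ C ∧
    ∀ (m : ℕ) (G : V → V →L[ℝ] E m), GD Λ G → ∀ J : ℕ,
    ∑ j ∈ Finset.Icc (k + 4) J, ENNReal.ofReal ((sj j ^ 2)⁻¹) *
      volume {x | x ∈ ball (0 : V) (3 / 2) ∧ ENNReal.ofReal ν ≤ Wc G k K x (sj j)} ≤
      ENNReal.ofReal C

/-- Two pinched points in a pinched cell. -/
def T_PTS : Prop := ∀ (m : ℕ) (Λ e om : ℝ), 0 < Λ → 0 < e → 0 < om →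
    ∀ G : V → V →L[ℝ] E m, GD Λ G → ∀ (k K : ℕ) (x : V) (s : ℝ), 0 < s →
    ball x ((2 ^ k + 2) * s) ⊆ ball 0 2 → e ≤ Λ → e / 4 ≤ th G x s →
    Wc G k K x s < ENNReal.ofReal (om * e / 16) →
    ∃ p ∈ ball x s, ∃ p' ∈ ball x s, dr G k K p s ≤ om ∧ dr G k K p' s ≤ om ∧
      e / (16 * Λ) * s ≤ dist p p'

/-! ### Monotonicity and small energy -/

/-- Monotonicity formula. -/
def T_MNT : Prop := ∀ (m : ℕ) (G : V → V →L[ℝ] E m),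
    MemLp G 2 (volume.restrict (ball (0 : V) 2)) → Stat1 G → ∀ (x : V) (r R : ℝ), 0 < r → r < R →
    ball x R ⊆ ball 0 2 →
    IntegrableOn (fun y => (‖y - x‖ ^ 3)⁻¹ * ‖G y (y - x)‖ ^ 2) (ball x R \ ball x r) ∧
    th G x r + 2 * ∫ y in ball x R \ ball x r, (‖y - x‖ ^ 3)⁻¹ * ‖G y (y - x)‖ ^ 2 ≤ th G x R

/-- Small energy: regularity and small gradient. -/
def T_EPR : Prop := ∀ (m : ℕ) (L ε δ : ℝ), 0 ≤ L → 0 < ε → 0 < δ → ∃ e : ℝ, 0 < e ∧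
    ∀ (Λ : ℝ) (U : Set V) (u : V → E m) (G : V → V →L[ℝ] E m), SM m L Λ ε U u G →
    ∀ (x : V) (r : ℝ), 0 < r → ball x r ⊆ ball 0 2 → (mu G).real (ball x r) ≤ e * r →
    ∀ y ∈ ball x (r / 2), y ∈ U ∧ r ^ 2 * en u y ≤ δ ^ 2

/-- Local bound of the Hessian. -/
def T_HLC : Prop := ∀ (m : ℕ) (L Λ ε e : ℝ), 0 ≤ L → EP m L Λ ε e → ∃ C : ℝ, 0 ≤ C ∧
    ∀ (U : Set V) (u : V → E m) (G : V → V →L[ℝ] E m), SM m L Λ ε U u G →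
    ∀ (x : V) (R : ℝ), 0 < R → ball x R ⊆ ball 0 2 → th G x R < 2 * e →
    ball x (R / 32) ⊆ U ∧ hInt u (ball x (R / 32)) ≤ ENNReal.ofReal (C * R * Real.sqrt (th G x (R / 16)))

/-! ### Two pinched points -/

/-- The radial energy at two points. -/
def T_RAD : Prop := ∀ (m : ℕ) (Λ : ℝ) (G : V → V →L[ℝ] E m), GD Λ G →
    ∀ (σ τ om r₁ D e : ℝ) (x₀ : V), 0 ≤ Λ → 0 < τ → τ ≤ 1 / 64 → 0 < r₁ → 0 < σ → σ ≤ 1 / 64 →
    Fr G σ τ om r₁ D e x₀ →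
    ∫ x in {x : V | x ∈ ball 0 (7 / 8) ∧ τ ≤ ‖x‖ ∧ τ ≤ ‖x - D • bv 2‖},
      (nzs (G x) + ‖G x (Pm 1 x)‖ ^ 2) ≤ 100 * om / D ^ 2 ∧
    ∫ x in ball (0 : V) (7 / 8), nzs (G x) ≤ 100 * om / D ^ 2 + 2 * Λ * τ

/-- The identity of Pohozaev for the field `f(x) (x_0, x_1, 0)`. -/
def T_PID : Prop := ∀ (m : ℕ) (G : V → V →L[ℝ] E m),
    MemLp G 2 (volume.restrict (ball (0 : V) 2)) → Stat1 G → ∀ f : V → ℝ, ContDiff ℝ 1 f →
    HasCompactSupport f → tsupport f ⊆ ball 0 2 → (∀ x, fderiv ℝ f x (Jm 1 x) = 0) →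
    ∫ x in ball (0 : V) 2, ((2 * f x - kap f x) * nzs (G x) +
      kap f x * ((rho x ^ 2)⁻¹ * ‖G x (Pm 1 x)‖ ^ 2) -
      kap f x * ((rho x ^ 2)⁻¹ * ‖G x (Jm 1 x)‖ ^ 2) -
      2 * fderiv ℝ f x (bv 2) * ⟪G x (bv 2), G x (Pm 1 x)⟫) = 0

/-- The logarithmic profile. -/
def T_PRF : Prop := ∀ δ : ℝ, 0 < δ → ∃ (M C : ℝ) (η : ℝ → ℝ), 2 ≤ M ∧ 0 ≤ C ∧ ContDiff ℝ 1 η ∧
    (∀ s, 0 ≤ η s ∧ η s ≤ C) ∧ (∀ s, s ≤ 1 / M → η s = 0) ∧ (∀ s, 5 / 4 ≤ s → η s = 0) ∧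
    (∀ s, s * deriv η s ≤ δ) ∧ (∀ s, - C ≤ s * deriv η s) ∧
    (∀ s ∈ Icc (7 / 8 : ℝ) (9 / 8), s * deriv η s ≤ - 1)

/-- Annuli have small energy. -/
def T_ANN : Prop := ∀ (Λ δ : ℝ), 0 ≤ Λ → 0 < δ → ∃ M C : ℝ, 2 ≤ M ∧ 0 ≤ C ∧
    ∀ (m : ℕ) (G : V → V →L[ℝ] E m), GD Λ G → ∀ x ∈ ball (0 : V) (5 / 8), 0 < rho x →
    (mu G).real (ball x (rho x / 8)) ≤ δ * rho x + C / rho x ^ 2 *
      ∫ y in {y : V | y ∈ ball 0 (7 / 8) ∧ rho x / M < rho y},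
        (nzs (G y) + ‖G y (Pm 1 y)‖ ^ 2)

/-- The neck. -/
def T_NCK : Prop := ∀ (m : ℕ) (L Λ ε δ rc σ r₁ : ℝ), 0 ≤ L → 0 < Λ → 0 < ε → 0 < δ → 0 < rc →
    0 < σ → σ ≤ 1 / 64 → 0 < r₁ → ∃ (K : ℕ) (om : ℝ), 0 < om ∧
    ∀ (U : Set V) (u : V → E m) (G : V → V →L[ℝ] E m), SM m L Λ ε U u G →
    ∀ (D e : ℝ) (x₀ : V), Fr G σ ((1 / 2) ^ K) om r₁ D e x₀ →
    (∀ x ∈ ball (0 : V) (5 / 8), rc ≤ rho x → x ∈ U ∧ rho x * Real.sqrt (en u x) ≤ δ) ∧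
    ∫ x in ball (0 : V) (5 / 8), nzs (G x) ≤ δ

end

end Pool.Agent.H87.D3
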