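import Pool.Agent.H87.D3.Targets

/-! The Hessian bound in dimension three (MP_2697e3_an): target statements of the rows of the board d3h,
part 2: conservation laws, the line, comparison of lines, the three scale inequality. -/

namespace Pool.Agent.H87.D3

open MeasureTheory Metric Set Filter Topology Pool.Agent.H87.SN Pool.Agent.H87.SH Pool.Agent.H87.AX
open scoped ContDiff RealInnerProductSpace ENNReal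

noncomputable section

/-! ### Definitions -/

/-- Cutoff in the distance to the third axis: one for `rho ≤ h`, zero for `2 h ≤ rho`. -/
def chh (h : ℝ) (x : V) : ℝ := Real.smoothTransition ((4 - (x 0 ^ 2 + x 1 ^ 2) / h ^ 2) / 3)

/-- The hat function of the window of centre `z₀` and half width `r`, of integral one. -/
def bw (z₀ r z : ℝ) : ℝ := r⁻¹ * max 0 (1 - |(z - z₀) / r|)

/-- Energy of the annulus. -/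
def In {m : ℕ} (G : V → V →L[ℝ] E m) (h Z : ℝ) : ℝ :=
  ∫ x in {x : V | h < rho x ∧ rho x < 2 * h ∧ |x 2| < Z}, nsq (G x)

/-- Mass of a window. -/
def ms {m : ℕ} (G : V → V →L[ℝ] E m) (h z₀ r : ℝ) : ℝ :=
  ∫ x in ball (0 : V) 2, chh h x * bw z₀ r (x 2) * tz (G x)

/-- Moment of a window. -/
def mo {m : ℕ} (G : V → V →L[ℝ] E m) (h : ℝ) (j : Fin (1 + 2)) (z₀ r : ℝ) : ℝ :=
  ∫ x in ball (0 : V) 2, chh h x * bw z₀ r (x 2) * x j * tz (G x)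

/-- The squared horizontal distance to the line `z ↦ (y0 + s0 z, y1 + s1 z, z)`. -/
def hd (y0 y1 s0 s1 : ℝ) (x : V) : ℝ := (x 0 - (y0 + s0 * x 2)) ^ 2 + (x 1 - (y1 + s1 * x 2)) ^ 2

/-- Energy outside of the thin core. -/
def oc {m : ℕ} (G : V → V →L[ℝ] E m) (rc : ℝ) : ℝ :=
  ∫ x in {x : V | x ∈ ball 0 (5 / 8) ∧ rc ≤ rho x}, nsq (G x)

/-- The thin core has mass in all windows. -/
def Thn {m : ℕ} (G : V → V →L[ℝ] E m) (h rc c : ℝ) : Prop :=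
  ∀ z₀ r : ℝ, h / 16 ≤ r → |z₀| + r ≤ 9 / 16 →
    c * r ≤ (mu G).real {x : V | rho x < rc ∧ |x 2 - z₀| < r}

/-- Masses and moments of windows: constant, respectively affine, up to the error `J`. -/
structure Cen {m : ℕ} (G : V → V →L[ℝ] E m) (h J mb y0 y1 s0 s1 : ℝ) : Prop where
  w1 : ∀ z₀ r : ℝ, 0 < r → |z₀| + r ≤ 3 / 8 → |ms G h z₀ r - mb| ≤ J
  w2 : ∀ z₀ r : ℝ, 0 < r → |z₀| + r ≤ 3 / 8 → |mo G h 0 z₀ r - mb * (y0 + s0 * z₀)| ≤ J ∧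
    |mo G h 1 z₀ r - mb * (y1 + s1 * z₀)| ≤ J
  w3 : ∀ z₀ r : ℝ, 0 < r → |z₀| + r ≤ 3 / 8 →
    |∫ x in ball (0 : V) 2, chh h x * ((x 2 - z₀) * bw z₀ r (x 2)) * tz (G x)| ≤ r * J

/-! ### Conservation laws -/

/-- Facts on the cutoff. -/
def T_CHF : Prop := ∃ C : ℝ, 0 ≤ C ∧ ∀ h : ℝ, 0 < h → ContDiff ℝ ∞ (chh h) ∧
    (∀ x, 0 ≤ chh h x ∧ chh h x ≤ 1) ∧ (∀ x, rho x ≤ h → chh h x = 1) ∧
    (∀ x, 2 * h ≤ rho x → chh h x = 0) ∧ (∀ x v, |fderiv ℝ (chh h) x v| ≤ C / h * ‖v‖) ∧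
    (∀ x, fderiv ℝ (chh h) x (bv 2) = 0) ∧ (∀ x, rho x < h → fderiv ℝ (chh h) x = 0) ∧
    (∀ x, 2 * h < rho x → fderiv ℝ (chh h) x = 0)

/-- Conservation of mass and of the moments. -/
def T_CNS : Prop := ∃ C : ℝ, 0 ≤ C ∧ ∀ (m : ℕ) (G : V → V →L[ℝ] E m),
    MemLp G 2 (volume.restrict (ball (0 : V) 2)) → Stat1 G → ∀ h Z : ℝ, 0 < h → h ≤ 1 / 8 → 0 < Z →
    Z ≤ 1 →
    (∀ (φ : ℝ → ℝ) (B : ℝ), ContDiff ℝ 1 φ → (∀ z, Z ≤ |z| → φ z = 0) → (∀ z, |φ z| ≤ B) →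
      |∫ x in ball (0 : V) 2, chh h x * deriv φ (x 2) * tz (G x)| ≤ C / h * B * In G h Z) ∧
    (∀ (φ : ℝ → ℝ) (B : ℝ) (j : Fin (1 + 2)), ContDiff ℝ 2 φ → (∀ z, Z ≤ |z| → φ z = 0) →
      (∀ z, |φ z| ≤ B) → (∀ z, |deriv φ z| ≤ B) → j ≠ 2 →
      |∫ x in ball (0 : V) 2, chh h x * deriv (deriv φ) (x 2) * x j * tz (G x)| ≤
        C / h * B * In G h Z)

/-- Combinations of windows as derivatives. -/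
def T_BMP : Prop := ∀ Z z₀ r : ℝ, 5 / 16 ≤ Z → Z ≤ 1 → 0 < r → |z₀| + r ≤ Z →
    (∃ φ : ℝ → ℝ, ContDiff ℝ 1 φ ∧ (∀ z, Z ≤ |z| → φ z = 0) ∧ (∀ z, |φ z| ≤ 10) ∧
      ∀ z, deriv φ z = bw z₀ r z - bw (1 / 4) (1 / 16) z) ∧
    (∃ φ : ℝ → ℝ, ContDiff ℝ 2 φ ∧ (∀ z, Z ≤ |z| → φ z = 0) ∧ (∀ z, |φ z| ≤ 10) ∧
      (∀ z, |deriv φ z| ≤ 10) ∧ ∀ z, deriv (deriv φ) z = bw z₀ r z -
        (1 / 2 + 2 * z₀) * bw (1 / 4) (1 / 16) z - (1 / 2 - 2 * z₀) * bw (-(1 / 4)) (1 / 16) z) ∧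
    (∃ φ : ℝ → ℝ, ContDiff ℝ 1 φ ∧ (∀ z, Z ≤ |z| → φ z = 0) ∧ (∀ z, |φ z| ≤ r) ∧
      ∀ z, deriv φ z = (z - z₀) * bw z₀ r z)

/-- Masses and moments of windows. -/
def T_MAS : Prop := ∃ C : ℝ, 0 ≤ C ∧ ∀ (m : ℕ) (G : V → V →L[ℝ] E m),
    MemLp G 2 (volume.restrict (ball (0 : V) 2)) → Stat1 G → ∀ h Z z₀ r : ℝ, 0 < h → h ≤ 1 / 8 →
    5 / 16 ≤ Z → Z ≤ 1 → 0 < r → |z₀| + r ≤ Z →
    |ms G h z₀ r - ms G h (1 / 4) (1 / 16)| ≤ C / h * In G h Z ∧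
    (∀ j : Fin (1 + 2), j ≠ 2 → |mo G h j z₀ r - ((1 / 2 + 2 * z₀) * mo G h j (1 / 4) (1 / 16) +
      (1 / 2 - 2 * z₀) * mo G h j (-(1 / 4)) (1 / 16))| ≤ C / h * In G h Z) ∧
    |∫ x in ball (0 : V) 2, chh h x * ((x 2 - z₀) * bw z₀ r (x 2)) * tz (G x)| ≤
      r * (C / h * In G h Z)

/-- Lower bound of the mass. -/
def T_MLB : Prop := ∀ (m : ℕ) (G : V → V →L[ℝ] E m),
    MemLp G 2 (volume.restrict (ball (0 : V) 2)) → ∀ (σ h e : ℝ) (x₀ : V), 0 < h → h ≤ σ →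
    σ ≤ 1 / 64 → 0 ≤ e → ‖x₀‖ < σ → e / 4 ≤ th G x₀ σ → oc G h ≤ e * σ / 32 →
    ∫ x in ball (0 : V) (5 / 8), nzs (G x) ≤ e * σ / 128 → e / 64 ≤ ms G h 0 (4 * σ)

/-- Mass of the thin core in a window; small moments. -/
def T_THN : Prop := ∀ (m : ℕ) (G : V → V →L[ℝ] E m),
    MemLp G 2 (volume.restrict (ball (0 : V) 2)) → ∀ (h rc : ℝ), 0 < rc → rc ≤ h → h ≤ 1 / 16 →
    (∀ (z₀ r c : ℝ), 0 < r → |z₀| + r ≤ 9 / 16 → 2 * c ≤ ms G h z₀ r → oc G rc ≤ c * r →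
      c * r ≤ (mu G).real {x : V | rho x < rc ∧ |x 2 - z₀| < r}) ∧
    (∀ j : Fin (1 + 2), j ≠ 2 → ∀ z₀ : ℝ, |z₀| ≤ 1 / 4 →
      |mo G h j z₀ (1 / 16)| ≤ 16 * (rc * (mu G).real (ball 0 2) + 2 * h * oc G rc))

/-! ### Lines -/

/-- Lines through two thin windows. -/
def T_LGR : Prop := ∀ (a T x₁ x₂ : V) (t z' : ℝ), ‖T‖ = 1 → 0 < t →
    |x₁ 2 - (z' + 2 * t)| < t / 4 → |x₂ 2 - (z' - 2 * t)| < t / 4 → rho x₁ ≤ t / 100 →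
    rho x₂ ≤ t / 100 → dl a T x₁ ≤ t ^ 2 / 900 → dl a T x₂ ≤ t ^ 2 / 900 →
    ∃ y0 y1 s0 s1 : ℝ, s0 ^ 2 + s1 ^ 2 ≤ 1 / 900 ∧
      (y0 + s0 * z') ^ 2 + (y1 + s1 * z') ^ 2 ≤ t ^ 2 / 400 ∧
      ∀ x : V, hd y0 y1 s0 s1 x ≤ 2 * dl a T x

/-- Graph lines. -/
def T_LIN : Prop := ∀ y0 y1 s0 s1 : ℝ, s0 ^ 2 + s1 ^ 2 ≤ 1 → ∃ a T : V, ‖T‖ = 1 ∧ a 0 = y0 ∧
    a 1 = y1 ∧ a 2 = 0 ∧ ∀ x : V, 0 ≤ hd y0 y1 s0 s1 x ∧ dl a T x ≤ hd y0 y1 s0 s1 x ∧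
      hd y0 y1 s0 s1 x ≤ 2 * dl a T x

/-- The second moment about the line is controlled by the beta number. -/
def T_CMP : Prop := ∀ Λ c : ℝ, 0 < Λ → 0 < c → ∃ C : ℝ, 0 ≤ C ∧
    ∀ (m : ℕ) (G : V → V →L[ℝ] E m), GD Λ G → ∀ h rc J mb y0 y1 s0 s1 : ℝ, 0 < h → h ≤ 1 / 64 →
    0 < rc → rc ≤ h / 100 → 0 ≤ J → c ≤ mb → |y0| + |y1| ≤ h / 50 → |s0| + |s1| ≤ h / 50 →
    Cen G h J mb y0 y1 s0 s1 → Thn G h rc c → ∀ (x' : V) (t : ℝ), h ≤ t → t ≤ 1 / 8 →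
    rho x' ≤ t / 4 → |x' 2| + 2 * t + t / 4 ≤ 3 / 8 → ball x' (8 * t) ⊆ ball 0 2 →
    ∫⁻ x in ball x' (6 * t), ENNReal.ofReal (hd y0 y1 s0 s1 x) ∂(mu G) ≤
      ENNReal.ofReal C * (ENNReal.ofReal (t ^ 3) * bt G x' t + ENNReal.ofReal (t * J ^ 2))

/-- The energy of the annulus is controlled by the beta number. -/
def T_ANB : Prop := ∀ Λ c : ℝ, 0 < Λ → 0 < c → ∃ C : ℝ, 0 ≤ C ∧
    ∀ (m : ℕ) (G : V → V →L[ℝ] E m), GD Λ G → ∀ h rc : ℝ, 0 < h → h ≤ 1 / 64 → 0 < rc →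
    rc ≤ h / 100 → Thn G h rc c → ∀ x' : V, rho x' ≤ h / 4 → |x' 2| ≤ 3 / 8 + h →
    mu G (ball x' (6 * h) ∩ {x | h < rho x}) ≤ ENNReal.ofReal C * (ENNReal.ofReal h * bt G x' h)

/-- Averaging along the axis. -/
def T_AVC : Prop := ∀ (μ : Measure V) [SFinite μ] (f : V → ℝ≥0∞) (h Z : ℝ), Measurable f → 0 < h →
    h ≤ 1 / 64 → 0 ≤ Z → Z ≤ 1 →
    ∫⁻ x in {x : V | rho x < 3 * h ∧ |x 2| ≤ Z}, f x ∂μ ≤ ENNReal.ofReal (3 / h ^ 3) *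
      ∫⁻ y in {y : V | rho y < h / 4 ∧ |y 2| < Z + h}, ∫⁻ x in ball y (6 * h), f x ∂μ

/-- Quantisation of the density near the axis. -/
def T_QNT : Prop := ∀ (m : ℕ) (L Λ ε e : ℝ), EP m L Λ ε e → 0 < e →
    ∀ (U : Set V) (u : V → E m) (G : V → V →L[ℝ] E m), SM m L Λ ε U u G → ∀ h rc c : ℝ,
    0 < h → h ≤ 1 / 64 → 0 < rc → rc ≤ h / 8 → 0 < c → 64 * rc ^ 2 < c * h ^ 2 → Thn G h rc c →
    (∀ (x : V) (t : ℝ), 2 * h ≤ t → t ≤ 1 / 8 → rho x < t / 4 → |x 2| ≤ 1 / 2 →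
      e ≤ th G x t) ∧
    (∀ (x₀ : V) (σ : ℝ), 4 * h ≤ σ → σ ≤ 1 / 64 → ‖x₀‖ < σ → th G x₀ (σ / 8) < 2 * e →
      σ / 64 ≤ rho x₀)

/-! ### The three scale inequality -/

/-- The basic quadratic function. -/
def DD (σ : ℝ) (x : V) : ℝ := σ ^ 2 + x 0 ^ 2 + x 1 ^ 2 + x 2 ^ 2 / 100

/-- The weight of the field. -/
def et (σ : ℝ) (x : V) : ℝ := DD σ x ^ (-(3 / 4) : ℝ)

/-- The weight of the angular estimate. -/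
def ww (σ : ℝ) (x : V) : ℝ := 3 / 2 * (rho x / DD σ x) ^ (3 / 2 : ℝ)

/-- Facts on the weights. -/
def T_WTS : Prop := ∀ σ : ℝ, 0 < σ → ContDiff ℝ ∞ (et σ) ∧ (∀ x, 0 < DD σ x) ∧
    (∀ x, 0 < et σ x) ∧ (∀ x, fderiv ℝ (et σ) x (Jm 1 x) = 0) ∧
    (∀ x, kap (et σ) x = 3 / 2 * (rho x ^ 2 * DD σ x ^ (-(7 / 4) : ℝ))) ∧
    (∀ x, kap (et σ) x ≤ 3 / 2 * et σ x) ∧
    (∀ x, rho x ^ 2 * fderiv ℝ (et σ) x (bv 2) ^ 2 ≤ kap (et σ) x * et σ x / 16) ∧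
    ContDiffOn ℝ ∞ (ww σ) {x | 0 < rho x} ∧ (∀ x, 0 < rho x → 0 < ww σ x) ∧
    (∀ (θ : ℝ) (x : V), ww σ (rot θ x) = ww σ x) ∧
    (∀ x, 0 < rho x → rho x ^ 2 * gsq (ww σ) x ≤ 5 / 2 * ww σ x ^ 2) ∧
    (∀ x, 0 < rho x → kap (et σ) x ≤ ww σ x)

/-- The radial cutoff. -/
structure Cz (ζ : V → ℝ) (B : ℝ) : Prop where
  C1 : ContDiff ℝ 1 ζ
  bd : ∀ x, 0 ≤ ζ x ∧ ζ x ≤ 1
  rad : ∀ x y : V, ‖x‖ = ‖y‖ → ζ x = ζ y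
  one : ∀ x, ‖x‖ ≤ 1 / 8 → ζ x = 1
  zero : ∀ x, 1 / 4 ≤ ‖x‖ → ζ x = 0
  gr : ∀ x, gsq ζ x ≤ B ^ 2

/-- Weighted Pohozaev inequality with a sharp error. -/
def T_PZ : Prop := ∀ (ζ : V → ℝ) (B : ℝ), Cz ζ B → ∃ C : ℝ, 0 ≤ C ∧
    ∀ (m : ℕ) (G : V → V →L[ℝ] E m), MemLp G 2 (volume.restrict (ball (0 : V) 2)) → Stat1 G →
    ∀ σ : ℝ, 0 < σ → σ ≤ 1 / 8 →
    ∫ x in ball (0 : V) 2, ζ x ^ 2 * (kap (et σ) x * nsq (G x)) ≤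
      13 * (∫ x in ball (0 : V) 2, ζ x ^ 2 *
        (kap (et σ) x * ((rho x ^ 2)⁻¹ * ‖G x (Jm 1 x)‖ ^ 2))) +
      C * ∫ x in ball (0 : V) (1 / 4), rho x ^ 2 * nsq (G x)

/-- Weighted angular estimate. -/
def T_AZ : Prop := ∀ (L B : ℝ) (ζ : V → ℝ), 0 ≤ L → Cz ζ B → ∃ δ C : ℝ, 0 < δ ∧ 0 ≤ C ∧
    ∀ (m : ℕ) (Λ ε : ℝ) (U : Set V) (u : V → E m) (G : V → V →L[ℝ] E m), SM m L Λ ε U u G →
    ∀ σ h : ℝ, 0 < h → 4 * h ≤ σ → σ ≤ 1 / 80 →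
    (∀ x ∈ ball (0 : V) (7 / 16), h / 2 < rho x → x ∈ U ∧ rho x ^ 2 * en u x ≤ δ ^ 2) →
    ∫ x in {x : V | x ∈ ball 0 (1 / 4) ∧ 2 * h ≤ rho x}, ζ x ^ 2 *
      (kap (et σ) x * ((rho x ^ 2)⁻¹ * ‖G x (Jm 1 x)‖ ^ 2)) ≤
      C * (1 / (Real.sqrt h * σ ^ 3) *
        (∫ x in {x : V | x ∈ ball 0 (1 / 4) ∧ rho x < 2 * h}, rho x ^ 2 * nsq (G x)) +
        ∫ x in ball (0 : V) (1 / 4), rho x ^ 2 * nsq (G x))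

/-- The three scale inequality, standard axis. -/
def T_KST : Prop := ∀ L : ℝ, 0 ≤ L → ∃ δ C : ℝ, 0 < δ ∧ 0 ≤ C ∧
    ∀ (m : ℕ) (Λ ε : ℝ) (U : Set V) (u : V → E m) (G : V → V →L[ℝ] E m), SM m L Λ ε U u G →
    ∀ σ h : ℝ, 0 < h → 4 * h ≤ σ → σ ≤ 1 / 80 →
    (∀ x ∈ ball (0 : V) (7 / 16), h / 2 < rho x → x ∈ U ∧ rho x ^ 2 * en u x ≤ δ ^ 2) →
    ENNReal.ofReal ((σ ^ 3)⁻¹) * ∫⁻ x in ball (0 : V) (10 * σ), ENNReal.ofReal (rho x ^ 2) ∂(mu G) ≤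
      ENNReal.ofReal C * (ENNReal.ofReal (1 / Real.sqrt (h * σ ^ 5)) *
        (∫⁻ x in {x : V | x ∈ ball 0 (1 / 4) ∧ rho x < 2 * h}, ENNReal.ofReal (rho x ^ 2) ∂(mu G)) +
        ENNReal.ofReal (Real.sqrt σ) *
          ∫⁻ x in ball (0 : V) (1 / 4), ENNReal.ofReal (rho x ^ 2) ∂(mu G))

/-- The three scale inequality for any line near the origin. -/
def T_KLN : Prop := ∀ L : ℝ, 0 ≤ L → ∃ δ C : ℝ, 0 < δ ∧ 0 ≤ C ∧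
    ∀ (m : ℕ) (Λ ε : ℝ) (U : Set V) (u : V → E m) (G : V → V →L[ℝ] E m), SM m L Λ ε U u G →
    ∀ (a T : V) (σ h : ℝ), ‖T‖ = 1 → ‖a‖ ≤ 1 / 100 → 0 < h → 4 * h ≤ σ → σ ≤ 1 / 160 →
    (∀ x ∈ ball (0 : V) (1 / 2), h ^ 2 / 4 < dl a T x → x ∈ U ∧ dl a T x * en u x ≤ δ ^ 2) →
    ENNReal.ofReal ((σ ^ 3)⁻¹) * ∫⁻ x in ball a (10 * σ), ENNReal.ofReal (dl a T x) ∂(mu G) ≤
      ENNReal.ofReal C * (ENNReal.ofReal (1 / Real.sqrt (h * σ ^ 5)) *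
        (∫⁻ x in {x : V | x ∈ ball a (1 / 8) ∧ dl a T x < (2 * h) ^ 2},
          ENNReal.ofReal (dl a T x) ∂(mu G)) +
        ENNReal.ofReal (Real.sqrt σ) *
          ∫⁻ x in ball a (1 / 8), ENNReal.ofReal (dl a T x) ∂(mu G))

end

end Pool.Agent.H87.D3
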